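import Mathlib

/-!
Basic definitions for the square-product problem and the linear algebra of blocks.
-/

namespace Pool.Agent.TN

open Finset

/-- `Works n t`: some nonempty `S ⊆ {n+1, …, n+t}` makes `n * ∏ S` a perfect square. -/
def Works (n t : ℕ) : Prop :=
  ∃ S : Finset ℕ, S.Nonempty ∧ S ⊆ Finset.Icc (n + 1) (n + t) ∧ IsSquare (n * ∏ a ∈ S, a)

/-- `t_n`, the least positive `t` with `Works n t`. -/
noncomputable def tn (n : ℕ) : ℕ := sInf {t : ℕ | 0 < t ∧ Works n t}

/-- The largest prime factor of `n` (and `0` for `n = 0, 1`). -/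
def P (n : ℕ) : ℕ := n.primeFactors.sup id

lemma works_mono {n s t : ℕ} (h : s ≤ t) (hs : Works n s) : Works n t := by
  obtain ⟨S, h1, h2, h3⟩ := hs
  refine ⟨S, h1, ?_, h3⟩
  intro a ha
  have := Finset.mem_Icc.mp (h2 ha)
  exact Finset.mem_Icc.mpr ⟨this.1, by omega⟩

lemma works_three_mul {n : ℕ} (hn : 1 ≤ n) : Works n (3 * n) := by
  refine ⟨{4 * n}, by simp, ?_, ?_⟩
  · intro a ha
    have : a = 4 * n := by simpa using ha
    exact Finset.mem_Icc.mpr ⟨by omega, by omega⟩
  · exact ⟨2 * n, by simp; ring⟩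

lemma tn_spec {n : ℕ} (hn : 1 ≤ n) : 0 < tn n ∧ Works n (tn n) := by
  have : (tn n) ∈ {t : ℕ | 0 < t ∧ Works n t} :=
    Nat.sInf_mem ⟨3 * n, by simp; omega, works_three_mul hn⟩
  exact this

lemma tn_le {n t : ℕ} (ht : 0 < t) (h : Works n t) : tn n ≤ t :=
  Nat.sInf_le (show t ∈ {t : ℕ | 0 < t ∧ Works n t} from ⟨ht, h⟩)

lemma P_mem {n : ℕ} (hn : 2 ≤ n) : P n ∈ n.primeFactors := by
  have hne : n.primeFactors.Nonempty := Nat.nonempty_primeFactors.mpr (by omega)
  obtain ⟨p, hp, hp2⟩ := Finset.exists_mem_eq_sup n.primeFactors hne id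
  unfold P
  rw [hp2]
  exact hp

lemma P_prime {n : ℕ} (hn : 2 ≤ n) : (P n).Prime := Nat.prime_of_mem_primeFactors (P_mem hn)

lemma P_dvd {n : ℕ} (hn : 2 ≤ n) : P n ∣ n := Nat.dvd_of_mem_primeFactors (P_mem hn)

lemma le_P {n p : ℕ} (hp : p ∈ n.primeFactors) : p ≤ P n := by
  unfold P
  exact Finset.le_sup (f := id) hp

lemma P_le {n : ℕ} (hn : 1 ≤ n) : P n ≤ n := by
  unfold P
  apply Finset.sup_le
  intro p hp
  exact Nat.le_of_dvd (by omega) (Nat.dvd_of_mem_primeFactors hp)

/-- A number all of whose prime exponents are even is a square. -/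
lemma isSquare_of_even {n : ℕ} (hn : n ≠ 0) (h : ∀ p, Even (n.factorization p)) :
    IsSquare n := by
  refine ⟨n.factorization.prod fun p k => p ^ (k / 2), ?_⟩
  conv_lhs => rw [← Nat.prod_factorization_pow_eq_self hn]
  rw [Finsupp.prod, Finsupp.prod, ← Finset.prod_mul_distrib]
  apply Finset.prod_congr rfl
  intro p _
  rw [← pow_add]
  congr 1
  obtain ⟨r, hr⟩ := h p
  omega

/-- Greedy spanning: at most `dim V` elements of a finite set are outside the span of the
later ones. -/
lemma card_bad_le {K V : Type*} [Field K] [AddCommGroup V] [Module K V] [FiniteDimensional K V]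
    (B : Finset ℕ) (v : ℕ → V) :
    {n | n ∈ B ∧ v n ∉ Submodule.span K (v '' {m | m ∈ B ∧ n < m})}.ncard ≤
      Module.finrank K (Submodule.span K (v '' (B : Set ℕ))) := by
  classical
  induction B using Finset.induction_on_min with
  | empty => simp
  | insert a B ha ih =>
    have hset : ∀ n ∈ B, {m | m ∈ insert a B ∧ n < m} = {m | m ∈ B ∧ n < m} := by
      intro n hn
      ext m
      simp only [Finset.mem_insert, Set.mem_setOf_eq]
      constructor
      · rintro ⟨rfl | h, h2⟩
        · exact absurd (ha n hn) (by omega)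
        · exact ⟨h, h2⟩
      · rintro ⟨h, h2⟩
        exact ⟨Or.inr h, h2⟩
    have hset2 : {m | m ∈ insert a B ∧ a < m} = (B : Set ℕ) := by
      ext m
      simp only [Finset.mem_insert, Set.mem_setOf_eq, Finset.mem_coe]
      constructor
      · rintro ⟨rfl | h, h2⟩
        · omega
        · exact h
      · intro h
        exact ⟨Or.inr h, ha m h⟩
    have hle : Submodule.span K (v '' (B : Set ℕ)) ≤
        Submodule.span K (v '' ((insert a B : Finset ℕ) : Set ℕ)) := by
      apply Submodule.span_mono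
      apply Set.image_mono
      simp
    by_cases hmem : v a ∈ Submodule.span K (v '' (B : Set ℕ))
    · have hsub : {n | n ∈ insert a B ∧ v n ∉ Submodule.span K (v '' {m | m ∈ insert a B ∧ n < m})} ⊆
          {n | n ∈ B ∧ v n ∉ Submodule.span K (v '' {m | m ∈ B ∧ n < m})} := by
        rintro n ⟨hn, hn2⟩
        rcases Finset.mem_insert.mp hn with rfl | hn'
        · rw [hset2] at hn2
          exact absurd hmem hn2
        · rw [hset n hn'] at hn2
          exact ⟨hn', hn2⟩
      calc _ ≤ _ := Set.ncard_le_ncard hsub (Set.Finite.subset B.finite_toSet (by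
              intro n hn; exact hn.1))
        _ ≤ _ := ih
        _ ≤ _ := Submodule.finrank_mono hle
    · have hsub : {n | n ∈ insert a B ∧ v n ∉ Submodule.span K (v '' {m | m ∈ insert a B ∧ n < m})} ⊆
          insert a {n | n ∈ B ∧ v n ∉ Submodule.span K (v '' {m | m ∈ B ∧ n < m})} := by
        rintro n ⟨hn, hn2⟩
        rcases Finset.mem_insert.mp hn with rfl | hn'
        · exact Set.mem_insert _ _
        · rw [hset n hn'] at hn2
          exact Set.mem_insert_of_mem _ ⟨hn', hn2⟩
      have hlt : Submodule.span K (v '' (B : Set ℕ)) <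
          Submodule.span K (v '' ((insert a B : Finset ℕ) : Set ℕ)) := by
        refine lt_of_le_of_ne hle ?_
        intro heq
        apply hmem
        rw [heq]
        apply Submodule.subset_span
        exact ⟨a, by simp, rfl⟩
      have h1 := Submodule.finrank_lt_finrank_of_lt hlt
      have hfin : {n | n ∈ B ∧ v n ∉ Submodule.span K (v '' {m | m ∈ B ∧ n < m})}.Finite :=
        Set.Finite.subset B.finite_toSet (by intro n hn; exact hn.1)
      calc _ ≤ _ := Set.ncard_le_ncard hsub (hfin.insert a)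
        _ ≤ _ := Set.ncard_insert_le _ _
        _ ≤ _ := by omega

end Pool.Agent.TN
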