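import Pool.Agent.TN.Cheb

/-!
The tail estimate: all but `36 (log C / C) N` of the `n ≤ N` satisfy `P n ≤ t_n ≤ C P n`.
-/

namespace Pool.Agent.TN

open Finset Real

/-- If `P n` divides `n` exactly once, then `P n ≤ t_n`. -/
lemma P_le_tn {n : ℕ} (hn : 2 ≤ n) (hsq : ¬ (P n) ^ 2 ∣ n) : P n ≤ tn n := by
  by_contra hlt
  push Not at hlt
  obtain ⟨h0, S, hSne, hS, hsquare⟩ := tn_spec (show 1 ≤ n by omega)
  have hp := P_prime hn
  have hd := P_dvd hn
  set p := P n with hpdef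
  have hnd : ∀ a ∈ S, ¬ p ∣ a := by
    intro a ha hpa
    have h1 := Finset.mem_Icc.mp (hS ha)
    have h2 : p ∣ a - n := Nat.dvd_sub hpa hd
    have h3 := Nat.le_of_dvd (by omega) h2
    omega
  have hne : ∀ a ∈ S, a ≠ 0 := by
    intro a ha
    have h1 := Finset.mem_Icc.mp (hS ha)
    omega
  have hprod : ∏ a ∈ S, a ≠ 0 := Finset.prod_ne_zero_iff.mpr hne
  have hfac : (n * ∏ a ∈ S, a).factorization p = 1 := by
    rw [Nat.factorization_mul (by omega) hprod, Finsupp.add_apply,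
      Nat.factorization_prod_apply hne]
    rw [Finset.sum_eq_zero]
    · have h1 : 1 ≤ n.factorization p :=
        (hp.dvd_iff_one_le_factorization (by omega)).mp hd
      have h2 : n.factorization p < 2 := by
        by_contra h
        push Not at h
        exact hsq ((hp.pow_dvd_iff_le_factorization (by omega)).mpr h)
      omega
    · intro a ha
      exact Nat.factorization_eq_zero_of_not_dvd (hnd a ha)
  obtain ⟨r, hr⟩ := hsquare
  have hr0 : r ≠ 0 := by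
    rintro rfl
    have : n * ∏ a ∈ S, a ≠ 0 := mul_ne_zero (by omega) hprod
    omega
  rw [hr, Nat.factorization_mul hr0 hr0, Finsupp.add_apply] at hfac
  omega

lemma card_squares_le (N : ℕ) :
    ({n | (1 ≤ n ∧ n ≤ N) ∧ IsSquare n}.ncard : ℝ) ≤ √N := by
  have hsub : {n | (1 ≤ n ∧ n ≤ N) ∧ IsSquare n} ⊆
      (((Finset.Icc 1 (Nat.sqrt N)).image (fun r => r * r) : Finset ℕ) : Set ℕ) := by
    rintro n ⟨⟨h1, h2⟩, r, rfl⟩
    rw [Finset.mem_coe, Finset.mem_image]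
    refine ⟨r, Finset.mem_Icc.mpr ⟨?_, Nat.le_sqrt.mpr h2⟩, rfl⟩
    rcases Nat.eq_zero_or_pos r with rfl | h
    · omega
    · exact h
  have h1 := Set.ncard_le_ncard hsub (Finset.finite_toSet _)
  rw [Set.ncard_coe_finset] at h1
  have h2 := h1.trans Finset.card_image_le
  rw [Nat.card_Icc, Nat.add_sub_cancel] at h2
  calc ({n | (1 ≤ n ∧ n ≤ N) ∧ IsSquare n}.ncard : ℝ) ≤ (Nat.sqrt N : ℝ) := by exact_mod_cast h2
    _ ≤ √N := Real.nat_sqrt_le_real_sqrt

/-- Number of `n ≤ N` divisible by `q²` for some `q > z`. -/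
lemma card_sq_dvd_le (N z : ℕ) (hz : 1 ≤ z) :
    ({n | (1 ≤ n ∧ n ≤ N) ∧ ∃ q, z < q ∧ q ^ 2 ∣ n}.ncard : ℝ) ≤ N / z := by
  have hsub : {n | (1 ≤ n ∧ n ≤ N) ∧ ∃ q, z < q ∧ q ^ 2 ∣ n} ⊆
      ⋃ q ∈ Finset.Ioc z N, (((Finset.Ioc 0 N).filter (fun n => q ^ 2 ∣ n) : Finset ℕ) :
        Set ℕ) := by
    rintro n ⟨⟨h1, h2⟩, q, hq, hqn⟩
    have h3 := Nat.le_of_dvd (by omega) hqn
    have h4 : q ≤ q ^ 2 := by nlinarith
    refine Set.mem_biUnion (show q ∈ Finset.Ioc z N from Finset.mem_Ioc.mpr ⟨hq, by omega⟩) ?_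
    simp only [Finset.coe_filter, Finset.mem_Ioc]
    exact ⟨⟨by omega, h2⟩, hqn⟩
  have hfin : (⋃ q ∈ Finset.Ioc z N, (((Finset.Ioc 0 N).filter (fun n => q ^ 2 ∣ n) :
      Finset ℕ) : Set ℕ)).Finite :=
    Set.Finite.biUnion (Finset.finite_toSet _) (fun q _ => Finset.finite_toSet _)
  have h1 : {n | (1 ≤ n ∧ n ≤ N) ∧ ∃ q, z < q ∧ q ^ 2 ∣ n}.ncard ≤
      ∑ q ∈ Finset.Ioc z N, N / q ^ 2 := by
    calc _ ≤ _ := Set.ncard_le_ncard hsub hfin
      _ ≤ ∑ q ∈ Finset.Ioc z N,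
          (((Finset.Ioc 0 N).filter (fun n => q ^ 2 ∣ n) : Finset ℕ) : Set ℕ).ncard :=
        Finset.set_ncard_biUnion_le _ _
      _ = _ := by
        apply Finset.sum_congr rfl
        intro q _
        rw [Set.ncard_coe_finset, Nat.Ioc_filter_dvd_card_eq_div]
  calc ({n | (1 ≤ n ∧ n ≤ N) ∧ ∃ q, z < q ∧ q ^ 2 ∣ n}.ncard : ℝ)
      ≤ ((∑ q ∈ Finset.Ioc z N, N / q ^ 2 : ℕ) : ℝ) := by exact_mod_cast h1
    _ ≤ ∑ q ∈ Finset.Ioc z N, (N : ℝ) * ((q : ℝ) ^ 2)⁻¹ := by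
        push_cast
        apply Finset.sum_le_sum
        intro q _
        calc ((N / q ^ 2 : ℕ) : ℝ) ≤ (N : ℝ) / ((q ^ 2 : ℕ) : ℝ) := Nat.cast_div_le
          _ = _ := by push_cast; rw [div_eq_mul_inv]
    _ = N * ∑ q ∈ Finset.Ioc z N, ((q : ℝ) ^ 2)⁻¹ := by rw [Finset.mul_sum]
    _ ≤ N * (z : ℝ)⁻¹ := by
        apply mul_le_mul_of_nonneg_left _ (Nat.cast_nonneg N)
        rcases le_or_gt z N with hzN | hzN
        · have := sum_Ioc_inv_sq_le_sub (α := ℝ) (k := z) (n := N) (by omega) hzN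
          have h2 : (0 : ℝ) ≤ (N : ℝ)⁻¹ := by positivity
          linarith
        · rw [Finset.Ioc_eq_empty (by omega), Finset.sum_empty]
          positivity
    _ = _ := by rw [div_eq_mul_inv]

/-- `∑_{j0 < j ≤ J} 1/j ≤ log (J/j0)`. -/
lemma sum_inv_le_log (j0 J : ℕ) (h0 : 1 ≤ j0) (h : j0 ≤ J) :
    ∑ j ∈ Finset.Ioc j0 J, (1 : ℝ) / j ≤ Real.log J - Real.log j0 := by
  induction J, h using Nat.le_induction with
  | base => simp
  | succ J hJ ih =>
    have hJr : (0 : ℝ) < J := by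
      have : 1 ≤ J := by omega
      exact_mod_cast this
    rw [← Finset.insert_Ioc_right_eq_Ioc_add_one (by omega), Finset.sum_insert (by simp)]
    have h1 := Real.one_sub_inv_le_log_of_pos (show (0 : ℝ) < ((J : ℝ) + 1) / J by positivity)
    rw [Real.log_div (by positivity) (by positivity)] at h1
    have h2 : (1 : ℝ) - (((J : ℝ) + 1) / J)⁻¹ = 1 / ((J : ℝ) + 1) := by
      field_simp
      ring
    push_cast
    linarith

/-- `∑_{j0 < j ≤ J} 2^j/j ≤ 2^(J+1)/j0`. -/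
lemma sum_two_pow_div_le (j0 J : ℕ) (h0 : 1 ≤ j0) :
    ∑ j ∈ Finset.Ioc j0 J, (2 : ℝ) ^ j / j ≤ 2 ^ (J + 1) / j0 := by
  have hj0 : (0 : ℝ) < j0 := by exact_mod_cast h0
  calc ∑ j ∈ Finset.Ioc j0 J, (2 : ℝ) ^ j / j ≤ ∑ j ∈ Finset.Ioc j0 J, (2 : ℝ) ^ j / j0 := by
        apply Finset.sum_le_sum
        intro j hj
        have h1 := (Finset.mem_Ioc.mp hj).1
        have h2 : (j0 : ℝ) ≤ j := by exact_mod_cast h1.le
        exact div_le_div_of_nonneg_left (by positivity) hj0 h2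
    _ = (∑ j ∈ Finset.Ioc j0 J, (2 : ℝ) ^ j) / j0 := by rw [Finset.sum_div]
    _ ≤ _ := by
        apply div_le_div_of_nonneg_right _ hj0.le
        calc ∑ j ∈ Finset.Ioc j0 J, (2 : ℝ) ^ j ≤ ∑ j ∈ Finset.range (J + 1), (2 : ℝ) ^ j := by
              apply Finset.sum_le_sum_of_subset_of_nonneg
              · intro j hj
                have := Finset.mem_Ioc.mp hj
                exact Finset.mem_range.mpr (by omega)
              · intro j _ _
                positivity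
          _ ≤ 2 ^ (J + 1) := by
              rw [geom_sum_eq (by norm_num)]
              have : (0 : ℝ) < 2 ^ (J + 1) := by positivity
              linarith

end Pool.Agent.TN
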