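import Pool.Agent.TN.Core

/-!
The block argument: in every block of length `L` at most `π(y)` nonsquare `y`-smooth numbers
fail to have `t_n ≤ L`.
-/

namespace Pool.Agent.TN

open Finset

/-- The exponent vector modulo 2, on the primes up to `y`. -/
noncomputable def vec (y n : ℕ) : (Nat.primesLE y) → ZMod 2 :=
  fun q => ((n.factorization (q : ℕ) : ℕ) : ZMod 2)

/-- The `y`-smooth numbers in `(a, a+L]`. -/
def blk (a L y : ℕ) : Finset ℕ := (Finset.Ioc a (a + L)).filter (fun n => P n ≤ y)

lemma mem_blk {a L y n : ℕ} : n ∈ blk a L y ↔ (a < n ∧ n ≤ a + L) ∧ P n ≤ y := by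
  unfold blk
  rw [Finset.mem_filter, Finset.mem_Ioc]

lemma factorization_zero_of_smooth {n q y : ℕ} (hP : P n ≤ y) (hq : y < q) :
    n.factorization q = 0 := by
  by_contra h
  have hmem : q ∈ n.primeFactors := by
    rw [← Nat.support_factorization]
    exact Finsupp.mem_support_iff.mpr h
  have := le_P hmem
  omega

lemma works_of_span {a L y n : ℕ} (hn : n ∈ blk a L y) (hsq : ¬ IsSquare n)
    (h : vec y n ∈ Submodule.span (ZMod 2) (vec y '' {m | m ∈ blk a L y ∧ n < m})) :
    Works n L := by
  classical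
  have hset : {m | m ∈ blk a L y ∧ n < m} = (((blk a L y).filter (fun m => n < m) : Finset ℕ) :
      Set ℕ) := by
    ext m; simp
  rw [hset, Submodule.mem_span_image_finset_iff_exists_fun'] at h
  obtain ⟨c, hc⟩ := h
  set T := (blk a L y).filter (fun m => n < m) with hT
  set S := T.filter (fun m => c m ≠ 0) with hS
  have hn' := mem_blk.mp hn
  have hSm : ∀ m ∈ S, (a < m ∧ m ≤ a + L) ∧ P m ≤ y ∧ n < m := by
    intro m hm
    have h1 := (Finset.mem_filter.mp hm).1
    have h2 := Finset.mem_filter.mp h1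
    have h3 := mem_blk.mp h2.1
    exact ⟨h3.1, h3.2, h2.2⟩
  have hvec : ∀ q : Nat.primesLE y, vec y n q = ∑ m ∈ S, vec y m q := by
    intro q
    have h1 := congrFun hc q
    rw [Finset.sum_apply] at h1
    have h2 : ∑ m ∈ S, vec y m q = ∑ m ∈ T, (if c m ≠ 0 then vec y m q else 0) := by
      rw [hS]
      exact Finset.sum_filter _ _
    rw [← h1, h2]
    apply Finset.sum_congr rfl
    intro m _
    by_cases hcm : c m = 0
    · simp [hcm]
    · have : c m = 1 := by
        generalize c m = z at hcm
        revert z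
        decide
      simp [this]
  have hne : ∀ m ∈ S, m ≠ 0 := by
    intro m hm
    have := (hSm m hm).1.1
    omega
  have hsquare : IsSquare (n * ∏ m ∈ S, m) := by
    apply isSquare_of_even
    · apply mul_ne_zero
      · omega
      · exact Finset.prod_ne_zero_iff.mpr hne
    · intro q
      rw [Nat.factorization_mul (by omega) (Finset.prod_ne_zero_iff.mpr hne),
        Finsupp.add_apply, Nat.factorization_prod_apply hne]
      by_cases hq : q ∈ Nat.primesLE y
      · have h1 := hvec ⟨q, hq⟩
        unfold vec at h1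
        simp only at h1
        rw [← ZMod.natCast_eq_zero_iff_even]
        push_cast
        rw [h1]
        exact CharTwo.add_self_eq_zero _
      · by_cases hqp : q.Prime
        · have hqy : y < q := by
            by_contra hle
            exact hq (by rw [Nat.mem_primesLE]; exact ⟨by omega, hqp⟩)
          rw [factorization_zero_of_smooth hn'.2 hqy]
          rw [Finset.sum_eq_zero]
          · simp
          · intro m hm
            exact factorization_zero_of_smooth (hSm m hm).2.1 hqy
        · simp [Nat.factorization_eq_zero_of_not_prime _ hqp]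
  have hSne : S.Nonempty := by
    by_contra hemp
    rw [Finset.not_nonempty_iff_eq_empty] at hemp
    rw [hemp] at hsquare
    simp at hsquare
    exact hsq hsquare
  refine ⟨S, hSne, ?_, hsquare⟩
  intro m hm
  have := hSm m hm
  exact Finset.mem_Icc.mpr ⟨by omega, by omega⟩

/-- In each block at most `π(y)` nonsquare smooth numbers fail. -/
lemma card_block_bad (a L y : ℕ) :
    {n | n ∈ blk a L y ∧ ¬ IsSquare n ∧ ¬ Works n L}.ncard ≤ (Nat.primesLE y).card := by
  have h1 := card_bad_le (K := ZMod 2) (blk a L y) (vec y)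
  have h2 : Module.finrank (ZMod 2)
      (Submodule.span (ZMod 2) (vec y '' (blk a L y : Set ℕ))) ≤ (Nat.primesLE y).card := by
    calc _ ≤ Module.finrank (ZMod 2) ((Nat.primesLE y) → ZMod 2) := Submodule.finrank_le _
      _ = _ := by
        rw [Module.finrank_fintype_fun_eq_card, Fintype.card_coe]
  refine le_trans (Set.ncard_le_ncard ?_ ?_) (le_trans h1 h2)
  · rintro n ⟨hn, hsq, hw⟩
    refine ⟨hn, ?_⟩
    intro hspan
    exact hw (works_of_span hn hsq hspan)
  · exact Set.Finite.subset (blk a L y).finite_toSet (by intro n hn; exact hn.1)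

/-- Up to `N`, at most `(N/L+1) π(y)` nonsquare `y`-smooth numbers have `t_n > L`. -/
lemma card_smooth_bad (N L y : ℕ) (hL : 1 ≤ L) :
    {n | (1 ≤ n ∧ n ≤ N) ∧ P n ≤ y ∧ ¬ IsSquare n ∧ L < tn n}.ncard ≤
      (N / L + 1) * (Nat.primesLE y).card := by
  have hsub : {n | (1 ≤ n ∧ n ≤ N) ∧ P n ≤ y ∧ ¬ IsSquare n ∧ L < tn n} ⊆
      ⋃ i ∈ Finset.range (N / L + 1), {n | n ∈ blk (i * L) L y ∧ ¬ IsSquare n ∧ ¬ Works n L} := by
    rintro n ⟨⟨h1, h2⟩, h3, h4, h5⟩
    have hi : (n - 1) / L ∈ Finset.range (N / L + 1) := by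
      rw [Finset.mem_range]
      have : (n - 1) / L ≤ N / L := Nat.div_le_div_right (by omega)
      omega
    refine Set.mem_biUnion hi ⟨?_, h4, ?_⟩
    · rw [mem_blk]
      have h6 := Nat.div_add_mod (n - 1) L
      have h7 := Nat.mod_lt (n - 1) (show 0 < L by omega)
      rw [mul_comm] at h6
      refine ⟨⟨by omega, by omega⟩, h3⟩
    · intro hw
      have := tn_le (by omega) hw
      omega
  have hfin : ∀ i ∈ Finset.range (N / L + 1),
      {n | n ∈ blk (i * L) L y ∧ ¬ IsSquare n ∧ ¬ Works n L}.Finite := by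
    intro i _
    exact Set.Finite.subset (blk (i * L) L y).finite_toSet (by intro n hn; exact hn.1)
  have hfinU : (⋃ i ∈ Finset.range (N / L + 1),
      {n | n ∈ blk (i * L) L y ∧ ¬ IsSquare n ∧ ¬ Works n L}).Finite :=
    Set.Finite.biUnion (Finset.finite_toSet _) hfin
  calc _ ≤ _ := Set.ncard_le_ncard hsub hfinU
    _ ≤ ∑ i ∈ Finset.range (N / L + 1),
        {n | n ∈ blk (i * L) L y ∧ ¬ IsSquare n ∧ ¬ Works n L}.ncard :=
      Finset.set_ncard_biUnion_le _ _
    _ ≤ ∑ _i ∈ Finset.range (N / L + 1), (Nat.primesLE y).card :=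
      Finset.sum_le_sum fun i _ => card_block_bad _ _ _
    _ = _ := by rw [Finset.sum_const, Finset.card_range, smul_eq_mul]

end Pool.Agent.TN
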