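import Pool.Agent.TN.Block

/-!
Chebyshev-type bounds and the trivial bound for smooth numbers.
-/

namespace Pool.Agent.TN

open Finset Real

/-- `π(2^j) ≤ 6 · 2^j / j`. -/
lemma card_primesLE_two_pow (j : ℕ) (hj : 1 ≤ j) :
    ((Nat.primesLE (2 ^ j)).card : ℝ) ≤ 6 * 2 ^ j / j := by
  have hx : (1 : ℝ) < (2 : ℝ) ^ j := one_lt_pow₀ (by norm_num) (by omega)
  have h := Chebyshev.pi_le_log4_mul_div hx
  have hfl : ⌊(2 : ℝ) ^ j⌋₊ = 2 ^ j := by
    have : ((2 : ℝ) ^ j) = ((2 ^ j : ℕ) : ℝ) := by push_cast; rfl
    rw [this, Nat.floor_natCast]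
  rw [hfl, ← Nat.primesLE_card_eq_primeCounting] at h
  have hlog : Real.log (√((2 : ℝ) ^ j)) = j * Real.log 2 / 2 := by
    rw [Real.log_sqrt (by positivity), Real.log_pow]
  have hlog4 : Real.log 4 = 2 * Real.log 2 := by
    rw [show (4 : ℝ) = 2 ^ 2 by norm_num, Real.log_pow]; push_cast; ring
  have hl2 : 0 < Real.log 2 := Real.log_pos (by norm_num)
  have hjr : (0 : ℝ) < j := by exact_mod_cast hj
  have h1 : Real.log 4 * (2 : ℝ) ^ j / Real.log (√((2 : ℝ) ^ j)) = 4 * 2 ^ j / j := by
    rw [hlog, hlog4]; field_simp; ring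
  have h2 : √((2 : ℝ) ^ j) ≤ 2 * 2 ^ j / j := by
    rw [le_div_iff₀ hjr]
    have hs : √((2 : ℝ) ^ j) * √((2 : ℝ) ^ j) = 2 ^ j := Real.mul_self_sqrt (by positivity)
    have hspos : 0 < √((2 : ℝ) ^ j) := Real.sqrt_pos.mpr (by positivity)
    -- j ≤ 2 sqrt(2^j)
    have hj2 : (j : ℝ) ≤ 2 * √((2 : ℝ) ^ j) := by
      have h3 : (j : ℝ) ^ 2 ≤ 4 * (2 : ℝ) ^ j := by
        have h4 : ∀ k : ℕ, k ^ 2 ≤ 4 * 2 ^ k := by
          intro k
          induction k with
          | zero => norm_num
          | succ k ih =>
            rcases Nat.lt_or_ge k 3 with hk | hk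
            · interval_cases k <;> norm_num
            · rw [pow_succ 2 k]
              nlinarith
        have := h4 j
        exact_mod_cast this
      have h5 : (j : ℝ) = √((j : ℝ) ^ 2) := by rw [Real.sqrt_sq hjr.le]
      have h6 : 2 * √((2 : ℝ) ^ j) = √(4 * (2 : ℝ) ^ j) := by
        rw [Real.sqrt_mul (by norm_num), show (4 : ℝ) = 2 ^ 2 by norm_num,
          Real.sqrt_sq (by norm_num)]
      rw [h6, h5]
      exact Real.sqrt_le_sqrt h3
    nlinarith
  rw [h1] at h
  calc _ ≤ _ := h
    _ ≤ 4 * 2 ^ j / j + 2 * 2 ^ j / j := by linarith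
    _ = _ := by ring

/-- The first Mertens upper bound. -/
lemma sum_log_div_le (y : ℕ) (hy : 1 ≤ y) :
    ∑ q ∈ Nat.primesLE y, Real.log q / q ≤ Real.log y + Real.log 4 := by
  have hyr : (0 : ℝ) < y := by exact_mod_cast hy
  have h1 : (y : ℝ) * ∑ q ∈ Nat.primesLE y, Real.log q / q - ∑ q ∈ Nat.primesLE y, Real.log q ≤
      Real.log (y.factorial) := by
    rw [Real.log_nat_eq_sum_factorization, Finset.mul_sum, ← Finset.sum_sub_distrib,
      Finsupp.sum]
    have hsub : ∑ q ∈ Nat.primesLE y, ((y : ℝ) * (Real.log q / q) - Real.log q) ≤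
        ∑ q ∈ Nat.primesLE y, ((y.factorial.factorization q : ℕ) : ℝ) * Real.log q := by
      apply Finset.sum_le_sum
      intro q hq
      have hqp : q.Prime := (Nat.mem_primesLE.mp hq).2
      have hqle : q ≤ y := (Nat.mem_primesLE.mp hq).1
      have hlq : 0 ≤ Real.log q := Real.log_natCast_nonneg q
      have hqr : (0 : ℝ) < q := by exact_mod_cast hqp.pos
      have h2 : (y / q : ℕ) ≤ y.factorial.factorization q := by
        rw [Nat.factorization_factorial hqp (Nat.lt_succ_of_lt (Nat.lt_add_one (Nat.log q y)))]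
        have : 1 ∈ Finset.Ico 1 (Nat.log q y + 1 + 1) := by simp
        calc y / q = y / q ^ 1 := by rw [pow_one]
          _ ≤ _ := Finset.single_le_sum (f := fun i => y / q ^ i) (fun i _ => Nat.zero_le _) this
      have h3 : (y : ℝ) / q - 1 ≤ ((y / q : ℕ) : ℝ) := by
        have := Nat.lt_floor_add_one ((y : ℝ) / q)
        rw [Nat.floor_div_natCast, Nat.floor_natCast] at this
        linarith
      have h4 : ((y / q : ℕ) : ℝ) ≤ ((y.factorial.factorization q : ℕ) : ℝ) := by
        exact_mod_cast h2
      calc (y : ℝ) * (Real.log q / q) - Real.log q = ((y : ℝ) / q - 1) * Real.log q := by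
            field_simp
        _ ≤ _ := mul_le_mul_of_nonneg_right (h3.trans h4) hlq
    refine hsub.trans ?_
    have hss : y.factorial.factorization.support ⊆ Nat.primesLE y := by
      intro q hq
      rw [Nat.support_factorization] at hq
      have hqp := Nat.prime_of_mem_primeFactors hq
      have hqd := Nat.dvd_of_mem_primeFactors hq
      rw [Nat.mem_primesLE]
      exact ⟨(hqp.dvd_factorial).mp hqd, hqp⟩
    rw [Finset.sum_subset hss]
    intro q _ hq
    rw [Finsupp.notMem_support_iff] at hq
    simp [hq]
  have h2 : ∑ q ∈ Nat.primesLE y, Real.log q ≤ Real.log 4 * y := by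
    rw [← Chebyshev.theta_eq_sum_primesLE_log]
    exact Chebyshev.theta_le_log4_mul_x (by positivity)
  have h3 : Real.log (y.factorial) ≤ y * Real.log y := by
    have := Nat.factorial_le_pow y
    calc Real.log (y.factorial) ≤ Real.log ((y : ℝ) ^ y) := by
          apply Real.log_le_log
          · exact_mod_cast Nat.factorial_pos y
          · exact_mod_cast this
      _ = _ := by rw [Real.log_pow]
  have h4 : (y : ℝ) * ∑ q ∈ Nat.primesLE y, Real.log q / q ≤ y * (Real.log y + Real.log 4) := by
    nlinarith
  exact le_of_mul_le_mul_left h4 hyr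

/-- Smooth numbers are rare. -/
lemma card_smooth_le (N y : ℕ) (hN : 1 ≤ N) (hy : 1 ≤ y) :
    ({n | (1 ≤ n ∧ n ≤ N) ∧ P n ≤ y}.ncard : ℝ) * (Real.log N / 2) ≤
      √N * (Real.log N / 2) + 2 * N * (Real.log y + Real.log 4) := by
  classical
  set A := (Finset.Icc 1 N).filter (fun n => P n ≤ y) with hA
  have hAset : {n | (1 ≤ n ∧ n ≤ N) ∧ P n ≤ y} = (A : Set ℕ) := by
    ext n; simp [hA]
  rw [hAset, Set.ncard_coe_finset]
  set A1 := A.filter (fun n => n * n ≤ N) with hA1
  set A2 := A.filter (fun n => ¬ n * n ≤ N) with hA2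
  have hcard : A.card = A1.card + A2.card := (Finset.card_filter_add_card_filter_not _).symm
  have h1 : (A1.card : ℝ) ≤ √N := by
    have : A1 ⊆ Finset.Icc 1 (Nat.sqrt N) := by
      intro n hn
      have h2 := Finset.mem_filter.mp hn
      have h3 := Finset.mem_filter.mp h2.1
      have h4 := Finset.mem_Icc.mp h3.1
      exact Finset.mem_Icc.mpr ⟨h4.1, Nat.le_sqrt.mpr h2.2⟩
    have h5 := Finset.card_le_card this
    rw [Nat.card_Icc, Nat.add_sub_cancel] at h5
    calc (A1.card : ℝ) ≤ (Nat.sqrt N : ℝ) := by exact_mod_cast h5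
      _ ≤ √N := Real.nat_sqrt_le_real_sqrt
  have hlogN : 0 ≤ Real.log N := Real.log_natCast_nonneg N
  have h2 : (A2.card : ℝ) * (Real.log N / 2) ≤ 2 * N * (Real.log y + Real.log 4) := by
    calc (A2.card : ℝ) * (Real.log N / 2) = ∑ _n ∈ A2, Real.log N / 2 := by
          rw [Finset.sum_const, nsmul_eq_mul]
      _ ≤ ∑ n ∈ A2, ∑ q ∈ Nat.primesLE y, ((n.factorization q : ℕ) : ℝ) * Real.log q := by
          apply Finset.sum_le_sum
          intro n hn
          have h2 := Finset.mem_filter.mp hn
          have h3 := Finset.mem_filter.mp h2.1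
          have h4 := Finset.mem_Icc.mp h3.1
          have h5 : Real.log N / 2 ≤ Real.log n := by
            have h6 : Real.log N ≤ Real.log ((n : ℝ) * n) := by
              apply Real.log_le_log
              · exact_mod_cast hN
              · exact_mod_cast (not_le.mp h2.2).le
            have hn0 : (n : ℝ) ≠ 0 := by
              have := h4.1
              positivity
            rw [Real.log_mul hn0 hn0] at h6
            linarith
          refine h5.trans ?_
          rw [Real.log_nat_eq_sum_factorization, Finsupp.sum]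
          apply le_of_eq
          apply Finset.sum_subset
          · intro q hq
            rw [Nat.support_factorization] at hq
            rw [Nat.mem_primesLE]
            exact ⟨(le_P hq).trans h3.2, Nat.prime_of_mem_primeFactors hq⟩
          · intro q _ hq
            rw [Finsupp.notMem_support_iff] at hq
            simp [hq]
      _ ≤ ∑ n ∈ Finset.Icc 1 N, ∑ q ∈ Nat.primesLE y,
            ((n.factorization q : ℕ) : ℝ) * Real.log q := by
          apply Finset.sum_le_sum_of_subset_of_nonneg
          · exact (Finset.filter_subset _ _).trans (Finset.filter_subset _ _)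
          · intro n _ _
            apply Finset.sum_nonneg
            intro q _
            exact mul_nonneg (Nat.cast_nonneg _) (Real.log_natCast_nonneg q)
      _ = ∑ q ∈ Nat.primesLE y, ((N.factorial.factorization q : ℕ) : ℝ) * Real.log q := by
          rw [Finset.sum_comm]
          apply Finset.sum_congr rfl
          intro q _
          rw [← Finset.sum_mul]
          congr 1
          rw [← Finset.prod_Ico_id_eq_factorial, Nat.factorization_prod_apply]
          · push_cast; rfl
          · intro x hx
            have := (Finset.mem_Ico.mp hx).1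
            omega
      _ ≤ ∑ q ∈ Nat.primesLE y, (2 * N) * (Real.log q / q) := by
          apply Finset.sum_le_sum
          intro q hq
          have hqp : q.Prime := (Nat.mem_primesLE.mp hq).2
          have hlq : 0 ≤ Real.log q := Real.log_natCast_nonneg q
          have hqr : (2 : ℝ) ≤ q := by exact_mod_cast hqp.two_le
          have h6 := Nat.factorization_factorial_le_div_pred hqp N
          have h7 : ((N.factorial.factorization q : ℕ) : ℝ) ≤ 2 * N / q := by
            calc ((N.factorial.factorization q : ℕ) : ℝ) ≤ ((N / (q - 1) : ℕ) : ℝ) := by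
                  exact_mod_cast h6
              _ ≤ (N : ℝ) / ((q - 1 : ℕ) : ℝ) := Nat.cast_div_le
              _ = (N : ℝ) / ((q : ℝ) - 1) := by
                  rw [Nat.cast_sub hqp.one_le]; norm_num
              _ ≤ 2 * N / q := by
                  rw [div_le_div_iff₀ (by linarith) (by linarith)]
                  have : (0 : ℝ) ≤ N := Nat.cast_nonneg N
                  nlinarith
          calc _ ≤ (2 * N / q) * Real.log q := mul_le_mul_of_nonneg_right h7 hlq
            _ = _ := by ring
      _ = (2 * N) * ∑ q ∈ Nat.primesLE y, Real.log q / q := by rw [Finset.mul_sum]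
      _ ≤ (2 * N) * (Real.log y + Real.log 4) := by
          apply mul_le_mul_of_nonneg_left (sum_log_div_le y hy)
          positivity
  rw [hcard]
  push_cast
  have h3 : (A1.card : ℝ) * (Real.log N / 2) ≤ √N * (Real.log N / 2) :=
    mul_le_mul_of_nonneg_right h1 (by linarith)
  linarith

end Pool.Agent.TN
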