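import Pool.Agent.TN.Tail

/-!
The tail estimate for `t_n / P n`.
-/

namespace Pool.Agent.TN

open Finset Real

/-- One dyadic range. -/
lemma card_dyadic_le (C : ℝ) (hC : 2 ≤ C) (N j : ℕ) (hj : 1 ≤ j) :
    ({n | (1 ≤ n ∧ n ≤ N) ∧ P n ≤ 2 ^ j ∧ ¬ IsSquare n ∧
      ⌊C * 2 ^ (j - 1)⌋₊ < tn n}.ncard : ℝ) ≤
      24 * N / C * (1 / j) + 6 * (2 ^ j / j) := by
  obtain ⟨i, rfl⟩ : ∃ i, j = i + 1 := ⟨j - 1, by omega⟩
  rw [Nat.add_sub_cancel]
  have h2i : (1 : ℝ) ≤ 2 ^ i := one_le_pow₀ (by norm_num)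
  have hx : (2 : ℝ) ≤ C * 2 ^ i := by nlinarith
  set L := ⌊C * 2 ^ i⌋₊ with hL
  have hLr : C * 2 ^ i / 2 ≤ (L : ℝ) := by
    have := Nat.lt_floor_add_one (C * 2 ^ i)
    rw [← hL] at this
    linarith
  have hL1 : 1 ≤ L := by
    have : (0 : ℝ) < L := by linarith
    have : 0 < L := by exact_mod_cast this
    omega
  have h1 := card_smooth_bad N L (2 ^ (i + 1)) hL1
  have h2 := card_primesLE_two_pow (i + 1) (by omega)
  have h3 : ((N / L : ℕ) : ℝ) ≤ 4 * N / (C * 2 ^ (i + 1)) := by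
    calc ((N / L : ℕ) : ℝ) ≤ (N : ℝ) / L := Nat.cast_div_le
      _ ≤ (N : ℝ) / (C * 2 ^ i / 2) := by
          apply div_le_div_of_nonneg_left (Nat.cast_nonneg N) (by linarith) hLr
      _ = _ := by rw [pow_succ]; field_simp; ring
  have hC0 : 0 < C := by linarith
  have hj0 : (0 : ℝ) < ((i + 1 : ℕ) : ℝ) := by positivity
  calc _ ≤ (((N / L + 1) * (Nat.primesLE (2 ^ (i + 1))).card : ℕ) : ℝ) := by exact_mod_cast h1
    _ = (((N / L : ℕ) : ℝ) + 1) * ((Nat.primesLE (2 ^ (i + 1))).card : ℝ) := by push_cast; ring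
    _ ≤ (4 * N / (C * 2 ^ (i + 1)) + 1) * (6 * 2 ^ (i + 1) / ((i + 1 : ℕ) : ℝ)) := by
        apply mul_le_mul (by linarith) h2 (Nat.cast_nonneg _)
        have : (0 : ℝ) ≤ 4 * N / (C * 2 ^ (i + 1)) := by positivity
        linarith
    _ = _ := by
        field_simp
        ring

theorem tail (C : ℝ) (hC : 2 ≤ C) (N : ℕ) (hN : Real.exp (24 * C ^ 2) ≤ N) :
    ({n | (1 ≤ n ∧ n ≤ N) ∧ ¬ (P n ≤ tn n ∧ (tn n : ℝ) ≤ C * P n)}.ncard : ℝ) ≤
      32 * (Real.log C / C) * N := by
  classical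
  have hC0 : 0 < C := by linarith
  have hNpos : (0 : ℝ) < N := lt_of_lt_of_le (Real.exp_pos _) hN
  have hN1 : 1 ≤ N := by
    have : 0 < N := by exact_mod_cast hNpos
    omega
  have hlogN : 24 * C ^ 2 ≤ Real.log N := by
    rw [Real.le_log_iff_exp_le hNpos]; exact hN
  have hlog2 : 0 < Real.log 2 := Real.log_pos (by norm_num)
  have hlog2' : 0.6931471803 < Real.log 2 := Real.log_two_gt_d9
  have hlog2'' : Real.log 2 < 0.6931471808 := Real.log_two_lt_d9
  have hlogN0 : 0 < Real.log N := by nlinarith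
  -- J
  set J := Nat.log 2 N + 1 with hJ
  have hJ1 : N < 2 ^ J := Nat.lt_pow_succ_log_self (by norm_num) N
  have hJ2 : 2 ^ J ≤ 2 * N := by
    rw [hJ, pow_succ]
    have := Nat.pow_log_le_self 2 (x := N) (by omega)
    omega
  have hJlog : Real.log N ≤ J * Real.log 2 := by
    rw [← Real.log_pow]
    apply Real.log_le_log hNpos
    exact_mod_cast hJ1.le
  have hJlog2 : J * Real.log 2 ≤ Real.log N + Real.log 2 := by
    rw [← Real.log_pow, add_comm, ← Real.log_mul (by norm_num) hNpos.ne']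
    apply Real.log_le_log (by positivity)
    exact_mod_cast hJ2
  have hJr : Real.log N ≤ J := by
    have : (J : ℝ) * Real.log 2 ≤ J * 1 := by
      apply mul_le_mul_of_nonneg_left (by linarith) (Nat.cast_nonneg J)
    linarith
  have hJpos : (0 : ℝ) < J := by linarith
  -- j0
  set j0 := ⌊(J : ℝ) / C⌋₊ + 1 with hj0
  have hj0a : (J : ℝ) / C ≤ j0 := by
    have := Nat.lt_floor_add_one ((J : ℝ) / C)
    rw [hj0]; push_cast; linarith
  have hj0b : (j0 : ℝ) ≤ J / C + 1 := by
    have := Nat.floor_le (show 0 ≤ (J : ℝ) / C by positivity)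
    rw [hj0]; push_cast; linarith
  have hj01 : 1 ≤ j0 := by omega
  have hj0J : j0 ≤ J := by
    have h1 : (J : ℝ) / C ≤ J / 2 := div_le_div_of_nonneg_left hJpos.le (by norm_num) hC
    have h2 : (j0 : ℝ) ≤ J := by
      have : (2 : ℝ) ≤ J := by nlinarith
      linarith
    exact_mod_cast h2
  have hj0pos : (0 : ℝ) < j0 := by exact_mod_cast hj01
  -- the sets
  set E := {n | (1 ≤ n ∧ n ≤ N) ∧ ¬ (P n ≤ tn n ∧ (tn n : ℝ) ≤ C * P n)} with hE
  set Sq := {n | (1 ≤ n ∧ n ≤ N) ∧ IsSquare n} with hSq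
  set Sm := {n | (1 ≤ n ∧ n ≤ N) ∧ P n ≤ 2 ^ j0} with hSm
  set D := {n | (1 ≤ n ∧ n ≤ N) ∧ ∃ q, 2 ^ j0 < q ∧ q ^ 2 ∣ n} with hD
  set B : ℕ → Set ℕ := fun j => {n | (1 ≤ n ∧ n ≤ N) ∧ P n ≤ 2 ^ j ∧ ¬ IsSquare n ∧
      ⌊C * 2 ^ (j - 1)⌋₊ < tn n} with hB
  have hfinIcc : ∀ T : Set ℕ, (∀ n ∈ T, 1 ≤ n ∧ n ≤ N) → T.Finite := by
    intro T hT
    exact Set.Finite.subset (Finset.finite_toSet (Finset.Icc 1 N)) (by
      intro n hn; rw [Finset.mem_coe, Finset.mem_Icc]; exact hT n hn)
  have hsub : E ⊆ Sq ∪ (Sm ∪ (D ∪ ⋃ j ∈ Finset.Ioc j0 J, B j)) := by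
    rintro n ⟨hn, hbad⟩
    by_cases h1 : IsSquare n
    · exact Or.inl ⟨hn, h1⟩
    right
    by_cases h2 : P n ≤ 2 ^ j0
    · exact Or.inl ⟨hn, h2⟩
    right
    push Not at h2
    have hn2 : 2 ≤ n := by
      by_contra h
      have : n = 1 := by omega
      exact h1 (this ▸ ⟨1, rfl⟩)
    by_cases h3 : (P n) ^ 2 ∣ n
    · exact Or.inl ⟨hn, P n, h2, h3⟩
    right
    have h4 := P_le_tn hn2 h3
    have h5 : C * P n < tn n := by
      by_contra h
      exact hbad ⟨h4, not_lt.mp h⟩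
    set j := Nat.clog 2 (P n) with hjdef
    have hj1 : P n ≤ 2 ^ j := Nat.le_pow_clog (by norm_num) _
    have hPpos : 1 < P n := (P_prime hn2).one_lt
    have hj2 : 2 ^ (j - 1) < P n := Nat.pow_pred_clog_lt_self (by norm_num) hPpos
    have hj3 : j0 < j := by
      by_contra h
      push Not at h
      have : 2 ^ j ≤ 2 ^ j0 := Nat.pow_le_pow_right (by norm_num) h
      omega
    have hj4 : j ≤ J := by
      rw [hjdef]
      apply Nat.clog_le_of_le_pow
      have := P_le hn.1
      omega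
    refine Set.mem_biUnion (show j ∈ Finset.Ioc j0 J from Finset.mem_Ioc.mpr ⟨hj3, hj4⟩) ?_
    refine ⟨hn, hj1, h1, ?_⟩
    have h6 : (⌊C * 2 ^ (j - 1)⌋₊ : ℝ) ≤ C * 2 ^ (j - 1) := Nat.floor_le (by positivity)
    have h7 : C * (2 : ℝ) ^ (j - 1) ≤ C * P n := by
      apply mul_le_mul_of_nonneg_left _ hC0.le
      exact_mod_cast hj2.le
    have h8 : (⌊C * 2 ^ (j - 1)⌋₊ : ℝ) < tn n := by linarith
    exact_mod_cast h8
  have hSqF : Sq.Finite := hfinIcc _ (fun n hn => hn.1)
  have hSmF : Sm.Finite := hfinIcc _ (fun n hn => hn.1)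
  have hDF : D.Finite := hfinIcc _ (fun n hn => hn.1)
  have hBF : ∀ j ∈ Finset.Ioc j0 J, (B j).Finite := fun j _ => hfinIcc _ (fun n hn => hn.1)
  have hUF : (⋃ j ∈ Finset.Ioc j0 J, B j).Finite :=
    Set.Finite.biUnion (Finset.finite_toSet _) hBF
  have hcard : E.ncard ≤ Sq.ncard + (Sm.ncard + (D.ncard + ∑ j ∈ Finset.Ioc j0 J, (B j).ncard)) := by
    calc E.ncard ≤ (Sq ∪ (Sm ∪ (D ∪ ⋃ j ∈ Finset.Ioc j0 J, B j))).ncard :=
          Set.ncard_le_ncard hsub (hSqF.union (hSmF.union (hDF.union hUF)))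
      _ ≤ Sq.ncard + (Sm ∪ (D ∪ ⋃ j ∈ Finset.Ioc j0 J, B j)).ncard := Set.ncard_union_le _ _
      _ ≤ Sq.ncard + (Sm.ncard + (D ∪ ⋃ j ∈ Finset.Ioc j0 J, B j).ncard) := by
          have := Set.ncard_union_le Sm (D ∪ ⋃ j ∈ Finset.Ioc j0 J, B j)
          omega
      _ ≤ Sq.ncard + (Sm.ncard + (D.ncard + (⋃ j ∈ Finset.Ioc j0 J, B j).ncard)) := by
          have := Set.ncard_union_le D (⋃ j ∈ Finset.Ioc j0 J, B j)
          omega
      _ ≤ _ := by
          have := Finset.set_ncard_biUnion_le (Finset.Ioc j0 J) B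
          omega
  have hcardR : (E.ncard : ℝ) ≤ Sq.ncard + (Sm.ncard + (D.ncard +
      ∑ j ∈ Finset.Ioc j0 J, ((B j).ncard : ℝ))) := by exact_mod_cast hcard
  -- estimates
  have hsqrt : √(N : ℝ) ≤ N / (12 * C ^ 2) := by
    have h1 : 12 * C ^ 2 ≤ √(N : ℝ) := by
      have h2 : Real.exp (12 * C ^ 2) ≤ √(N : ℝ) := by
        apply Real.le_sqrt_of_sq_le
        rw [← Real.exp_nat_mul]
        push_cast
        rw [show (2 : ℝ) * (12 * C ^ 2) = 24 * C ^ 2 by ring]
        exact hN
      have h3 := Real.add_one_le_exp (12 * C ^ 2)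
      linarith
    rw [le_div_iff₀ (by positivity)]
    calc √(N : ℝ) * (12 * C ^ 2) ≤ √(N : ℝ) * √(N : ℝ) :=
          mul_le_mul_of_nonneg_left h1 (Real.sqrt_nonneg _)
      _ = N := Real.mul_self_sqrt hNpos.le
  have hNC : (N : ℝ) / C ^ 2 ≤ N / C / 2 := by
    rw [div_div, pow_two]
    apply div_le_div_of_nonneg_left hNpos.le (by positivity)
    nlinarith
  have hsqrt2 : √(N : ℝ) ≤ (N / C) / 24 := by
    calc √(N : ℝ) ≤ N / (12 * C ^ 2) := hsqrt
      _ = (N / C ^ 2) / 12 := by field_simp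
      _ ≤ _ := by linarith
  have e1 : (Sq.ncard : ℝ) ≤ (N / C) / 24 := (card_squares_le N).trans hsqrt2
  have e2 : (Sm.ncard : ℝ) ≤ (N / C) / 24 + 4 * (N / C) + (N / C) / 4 := by
    have h1 := card_smooth_le N (2 ^ j0) hN1 Nat.one_le_two_pow
    rw [← hSm] at h1
    have hlog4 : Real.log 4 = 2 * Real.log 2 := by
      rw [show (4 : ℝ) = 2 ^ 2 by norm_num, Real.log_pow]; push_cast; ring
    have h2 : Real.log ((2 ^ j0 : ℕ) : ℝ) ≤ Real.log N / C + 3 / 2 * Real.log 2 := by
      push_cast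
      rw [Real.log_pow]
      calc (j0 : ℝ) * Real.log 2 ≤ (J / C + 1) * Real.log 2 :=
            mul_le_mul_of_nonneg_right hj0b hlog2.le
        _ = (J * Real.log 2) / C + Real.log 2 := by ring
        _ ≤ (Real.log N + Real.log 2) / C + Real.log 2 := by
            have := div_le_div_of_nonneg_right hJlog2 hC0.le
            linarith
        _ = Real.log N / C + (Real.log 2 / C + Real.log 2) := by ring
        _ ≤ _ := by
            have : Real.log 2 / C ≤ Real.log 2 / 2 :=
              div_le_div_of_nonneg_left hlog2.le (by norm_num) hC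
            linarith
    have h3 : (Sm.ncard : ℝ) * (Real.log N / 2) ≤
        (√N + 4 * (N / C) + 4 * N * (7 / 2 * Real.log 2) / Real.log N) * (Real.log N / 2) := by
      calc _ ≤ _ := h1
        _ ≤ √N * (Real.log N / 2) + 2 * N * (Real.log N / C + 3 / 2 * Real.log 2 +
              2 * Real.log 2) := by
            rw [hlog4]
            have : 2 * (N : ℝ) * (Real.log ((2 ^ j0 : ℕ) : ℝ) + 2 * Real.log 2) ≤
                2 * N * (Real.log N / C + 3 / 2 * Real.log 2 + 2 * Real.log 2) := by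
              apply mul_le_mul_of_nonneg_left _ (by positivity)
              linarith
            linarith
        _ = _ := by
            field_simp
            ring
    have h4 : (Sm.ncard : ℝ) ≤ √N + 4 * (N / C) + 4 * N * (7 / 2 * Real.log 2) / Real.log N :=
      le_of_mul_le_mul_right h3 (by linarith)
    have h5 : 4 * N * (7 / 2 * Real.log 2) / Real.log N ≤ (N / C) / 4 := by
      calc 4 * N * (7 / 2 * Real.log 2) / Real.log N ≤ 4 * N * (7 / 2 * Real.log 2) / (24 * C ^ 2) := by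
            apply div_le_div_of_nonneg_left (by positivity) (by positivity) hlogN
        _ = (N / C ^ 2) * (14 / 24 * Real.log 2) := by
            field_simp
            ring
        _ ≤ (N / C / 2) * (1 / 2) := by
            apply mul_le_mul hNC (by linarith) (by positivity) (by positivity)
        _ = _ := by ring
    linarith
  have e3 : (D.ncard : ℝ) ≤ (N / C) / 24 := by
    have h1 := card_sq_dvd_le N (2 ^ j0) Nat.one_le_two_pow
    rw [← hD] at h1
    have h2 : 24 * C ≤ ((2 ^ j0 : ℕ) : ℝ) := by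
      have h3 : (j0 : ℝ) ≤ ((2 ^ j0 : ℕ) : ℝ) := by
        exact_mod_cast (Nat.lt_two_pow_self (n := j0)).le
      have h4 : 24 * C ≤ (J : ℝ) / C := by
        rw [le_div_iff₀ hC0]
        nlinarith
      linarith
    calc (D.ncard : ℝ) ≤ _ := h1
      _ ≤ N / (24 * C) := div_le_div_of_nonneg_left hNpos.le (by positivity) h2
      _ = _ := by field_simp
  have e4 : ∑ j ∈ Finset.Ioc j0 J, ((B j).ncard : ℝ) ≤ 24 * (N / C) * Real.log C + N / C := by
    calc ∑ j ∈ Finset.Ioc j0 J, ((B j).ncard : ℝ)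
        ≤ ∑ j ∈ Finset.Ioc j0 J, (24 * N / C * (1 / j) + 6 * ((2 : ℝ) ^ j / j)) := by
          apply Finset.sum_le_sum
          intro j hj
          have := (Finset.mem_Ioc.mp hj).1
          exact card_dyadic_le C hC N j (by omega)
      _ = 24 * N / C * ∑ j ∈ Finset.Ioc j0 J, (1 : ℝ) / j +
            6 * ∑ j ∈ Finset.Ioc j0 J, (2 : ℝ) ^ j / j := by
          rw [Finset.sum_add_distrib, Finset.mul_sum, Finset.mul_sum]
      _ ≤ 24 * N / C * Real.log C + 6 * (2 ^ (J + 1) / j0) := by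
          have h1 : ∑ j ∈ Finset.Ioc j0 J, (1 : ℝ) / j ≤ Real.log C := by
            have h2 := sum_inv_le_log j0 J hj01 hj0J
            have h3 : Real.log J - Real.log j0 ≤ Real.log C := by
              rw [← Real.log_div hJpos.ne' hj0pos.ne']
              apply Real.log_le_log (by positivity)
              rw [div_le_iff₀ hj0pos]
              rw [div_le_iff₀ hC0] at hj0a
              linarith
            linarith
          have h4 := sum_two_pow_div_le j0 J hj01
          have h5 : 24 * (N : ℝ) / C * ∑ j ∈ Finset.Ioc j0 J, (1 : ℝ) / j ≤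
              24 * N / C * Real.log C := mul_le_mul_of_nonneg_left h1 (by positivity)
          linarith
      _ ≤ _ := by
          have h1 : (2 : ℝ) ^ (J + 1) ≤ 4 * N := by
            have : (2 : ℝ) ^ J ≤ 2 * N := by exact_mod_cast hJ2
            rw [pow_succ]
            linarith
          have h2 : 6 * ((2 : ℝ) ^ (J + 1) / j0) ≤ N / C := by
            calc 6 * ((2 : ℝ) ^ (J + 1) / j0) ≤ 6 * (4 * N / j0) := by
                  apply mul_le_mul_of_nonneg_left _ (by norm_num)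
                  exact div_le_div_of_nonneg_right h1 hj0pos.le
              _ ≤ 6 * (4 * N / (J / C)) := by
                  apply mul_le_mul_of_nonneg_left _ (by norm_num)
                  exact div_le_div_of_nonneg_left (by positivity) (by positivity) hj0a
              _ = 24 * (N * C) / J := by
                  field_simp
                  ring
              _ ≤ 24 * (N * C) / (24 * C ^ 2) := by
                  apply div_le_div_of_nonneg_left (by positivity) (by positivity)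
                  linarith
              _ = N / C := by
                  field_simp
          have h3 : 24 * (N : ℝ) / C * Real.log C = 24 * (N / C) * Real.log C := by ring
          linarith
  have hNCpos : 0 < (N : ℝ) / C := by positivity
  have hlogC : Real.log 2 ≤ Real.log C := Real.log_le_log (by norm_num) hC
  have htot : (E.ncard : ℝ) ≤ 24 * (N / C) * Real.log C + 5.375 * (N / C) := by
    linarith
  calc (E.ncard : ℝ) ≤ 24 * (N / C) * Real.log C + 5.375 * (N / C) := htot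
    _ ≤ 24 * (N / C) * Real.log C + 8 * (N / C) * Real.log C := by
        have : 5.375 ≤ 8 * Real.log C := by linarith
        have := mul_le_mul_of_nonneg_right this hNCpos.le
        linarith
    _ = _ := by ring

end Pool.Agent.TN
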