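import Pool.Agent.TN.Scale

/-!
The order of `t_n` on every scale `P n ≈ n^(1/u)`.
-/

namespace Pool.Agent.TN

open Finset Real Filter

/-- The number of primes in `(y/4, y]`. -/
lemma exists_prime_count : ∃ y0 : ℕ, ∀ y : ℕ, y0 ≤ y →
    (1 : ℝ) / 5 * (y / Real.log y) ≤
      (((Nat.primesLE y).filter (fun p => y < 4 * p)).card : ℝ) := by
  have h1 := Chebyshev.eventually_primeCounting_le (ε := 1 / 10) (by norm_num)
  rw [eventually_atTop] at h1
  obtain ⟨a, ha⟩ := h1
  refine ⟨max (4 * ⌈a⌉₊ + 4) ⌈Real.exp 20⌉₊, ?_⟩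
  intro y hy
  have hy1 : 4 * ⌈a⌉₊ + 4 ≤ y := (le_max_left _ _).trans hy
  have hyexp : Real.exp 20 ≤ y := (Nat.le_ceil _).trans (by
    exact_mod_cast (le_max_right _ _).trans hy)
  have hypos : (0 : ℝ) < y := (Real.exp_pos _).trans_le hyexp
  have hylog : 20 ≤ Real.log y := (Real.le_log_iff_exp_le hypos).mpr hyexp
  have hlog2 : 0.6931471803 < Real.log 2 := Real.log_two_gt_d9
  have hlog2'' : Real.log 2 < 0.6931471808 := Real.log_two_lt_d9
  have hlog4 : Real.log 4 = 2 * Real.log 2 := by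
    rw [show (4 : ℝ) = 2 ^ 2 by norm_num, Real.log_pow]; push_cast; ring
  -- upper bound for π(y/4)
  have h2 : a ≤ (y : ℝ) / 4 := by
    have h3 : (a : ℝ) ≤ ⌈a⌉₊ := Nat.le_ceil a
    have h4 : (4 * ⌈a⌉₊ + 4 : ℝ) ≤ y := by exact_mod_cast hy1
    linarith
  have h3 := ha ((y : ℝ) / 4) h2
  have hfl : ⌊(y : ℝ) / 4⌋₊ = y / 4 := by
    have := Nat.floor_div_natCast (y : ℝ) 4
    rw [Nat.floor_natCast] at this
    exact_mod_cast this
  rw [hfl, ← Nat.primesLE_card_eq_primeCounting] at h3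
  have hlogy4 : 9 / 10 * Real.log y ≤ Real.log ((y : ℝ) / 4) := by
    rw [Real.log_div hypos.ne' (by norm_num), hlog4]
    linarith
  have h4 : (((Nat.primesLE (y / 4)).card : ℕ) : ℝ) ≤ 42 / 100 * (y / Real.log y) := by
    calc _ ≤ _ := h3
      _ ≤ (Real.log 4 + 1 / 10) * ((y : ℝ) / 4) / (9 / 10 * Real.log y) := by
          apply div_le_div_of_nonneg_left _ (by linarith) hlogy4
          rw [hlog4]
          positivity
      _ = ((Real.log 4 + 1 / 10) / (36 / 10)) * (y / Real.log y) := by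
          field_simp
          ring
      _ ≤ _ := by
          apply mul_le_mul_of_nonneg_right _ (by positivity)
          rw [hlog4]
          linarith
  -- lower bound for π(y)
  have h5 := Chebyshev.pi_ge y
  rw [← Nat.primesLE_card_eq_primeCounting] at h5
  have h6 : Real.log ((y : ℝ) + 1) ≤ 5 / 100 * y := by
    have h7 : Real.log ((y : ℝ) + 1) ≤ 2 * Real.log y := by
      rw [← Real.log_rpow hypos, Real.rpow_two]
      apply Real.log_le_log (by positivity)
      have : (20 : ℝ) + 1 ≤ Real.exp 20 := Real.add_one_le_exp 20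
      nlinarith
    have h8 : 2 * Real.log y ≤ 5 / 100 * y := by
      have h9 : Real.log y ≤ 2 * √(y : ℝ) := by
        have := Real.log_le_sub_one_of_pos (show 0 < √(y : ℝ) from Real.sqrt_pos.mpr hypos)
        rw [Real.log_sqrt hypos.le] at this
        linarith
      have h10 : 80 ≤ √(y : ℝ) := by
        apply Real.le_sqrt_of_sq_le
        have h11 : (2 : ℝ) ^ 20 ≤ Real.exp 20 := by
          have h12 : (2 : ℝ) ≤ Real.exp 1 := by
            have := Real.add_one_le_exp (1 : ℝ)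
            linarith
          calc (2 : ℝ) ^ 20 ≤ (Real.exp 1) ^ 20 := pow_le_pow_left₀ (by norm_num) h12 20
            _ = Real.exp 20 := by rw [← Real.exp_nat_mul]; norm_num
        have h13 : (80 : ℝ) ^ 2 ≤ 2 ^ 20 := by norm_num
        linarith
      have h14 : √(y : ℝ) * √(y : ℝ) = y := Real.mul_self_sqrt hypos.le
      nlinarith
    linarith
  have h7 : 64 / 100 * (y / Real.log y) ≤ (((Nat.primesLE y).card : ℕ) : ℝ) := by
    calc 64 / 100 * (y / Real.log y) = (64 / 100 * y) / Real.log y := by ring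
      _ ≤ (y * Real.log 2 - Real.log ((y : ℝ) + 1)) / Real.log y := by
          apply div_le_div_of_nonneg_right _ (by linarith)
          nlinarith
      _ ≤ _ := h5
  have h8 : (Nat.primesLE y).card ≤ (Nat.primesLE (y / 4)).card +
      ((Nat.primesLE y).filter (fun p => y < 4 * p)).card := by
    have hsub : Nat.primesLE y ⊆ Nat.primesLE (y / 4) ∪
        (Nat.primesLE y).filter (fun p => y < 4 * p) := by
      intro p hp
      rw [Finset.mem_union]
      have hp' := Nat.mem_primesLE.mp hp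
      by_cases h : y < 4 * p
      · exact Or.inr (Finset.mem_filter.mpr ⟨hp, h⟩)
      · left
        rw [Nat.mem_primesLE]
        exact ⟨by omega, hp'.2⟩
    exact (Finset.card_le_card hsub).trans (Finset.card_union_le _ _)
  have h9 : (((Nat.primesLE y).card : ℕ) : ℝ) ≤ (((Nat.primesLE (y / 4)).card : ℕ) : ℝ) +
      ((((Nat.primesLE y).filter (fun p => y < 4 * p)).card : ℕ) : ℝ) := by exact_mod_cast h8
  have h10 : (0 : ℝ) ≤ y / Real.log y := by positivity
  linarith

/-- The integers `n ≤ N` with `y/4 < P n ≤ y`. -/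
def Win (N y : ℕ) : Set ℕ := {n | (1 ≤ n ∧ n ≤ N) ∧ y < 4 * P n ∧ P n ≤ y}

lemma Win_finite (N y : ℕ) : (Win N y).Finite :=
  Set.Finite.subset (Finset.finite_toSet (Finset.Icc 1 N)) (by
    intro n hn; rw [Finset.mem_coe, Finset.mem_Icc]; exact hn.1)

/-- The window is large. -/
lemma Win_ge (N y : ℕ) :
    ((Nat.primesLE y).filter (fun p => y < 4 * p)).card * psi (N / y) (y / 4) ≤
      (Win N y).ncard := by
  classical
  set A := ((Nat.primesLE y).filter (fun p => y < 4 * p)) ×ˢ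
    ((Finset.Icc 1 (N / y)).filter (fun m => P m ≤ y / 4)) with hA
  have hcard : A.card = ((Nat.primesLE y).filter (fun p => y < 4 * p)).card *
      psi (N / y) (y / 4) := by
    rw [hA, Finset.card_product]
    rfl
  rw [← hcard, ← Set.ncard_coe_finset]
  have hprop : ∀ s ∈ A, s.1.Prime ∧ s.1 ≤ y ∧ y < 4 * s.1 ∧ 1 ≤ s.2 ∧ s.2 ≤ N / y ∧
      P s.2 ≤ y / 4 := by
    intro s hs
    rw [hA, Finset.mem_product] at hs
    have h1 := Finset.mem_filter.mp hs.1
    have h2 := Nat.mem_primesLE.mp h1.1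
    have h3 := Finset.mem_filter.mp hs.2
    have h4 := Finset.mem_Icc.mp h3.1
    exact ⟨h2.2, h2.1, h1.2, h4.1, h4.2, h3.2⟩
  have hPval : ∀ s ∈ A, P (s.1 * s.2) = s.1 := by
    intro s hs
    obtain ⟨h1, h2, h3, h4, h5, h6⟩ := hprop s hs
    apply le_antisymm
    · apply P_mul_le h1 le_rfl _ (by omega)
      omega
    · apply le_P
      rw [Nat.primeFactors_mul h1.ne_zero (by omega), Finset.mem_union]
      left
      rw [h1.primeFactors, Finset.mem_singleton]
  apply Set.ncard_le_ncard_of_injOn (fun s => s.1 * s.2) _ _ (Win_finite N y)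
  · intro s hs
    rw [Finset.mem_coe] at hs
    obtain ⟨h1, h2, h3, h4, h5, h6⟩ := hprop s hs
    have h7 := hPval s hs
    refine ⟨⟨Nat.mul_pos h1.pos h4, ?_⟩, ?_, ?_⟩
    · calc s.1 * s.2 ≤ y * (N / y) := Nat.mul_le_mul h2 h5
        _ ≤ N := Nat.mul_div_le _ _
    · rw [h7]; exact h3
    · rw [h7]; exact h2
  · intro s hs s' hs' heq
    rw [Finset.mem_coe] at hs hs'
    simp only at heq
    have h7 := hPval s hs
    have h8 := hPval s' hs'
    have h9 : s.1 = s'.1 := by rw [← h7, heq, h8]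
    have h10 : s.2 = s'.2 := by
      rw [← h9] at heq
      exact Nat.eq_of_mul_eq_mul_left (hprop s hs).1.pos heq
    exact Prod.ext h9 h10

/-- Lower bound `c N / log y` for the window, uniformly for `y ≤ N ≤ y^k`. -/
lemma Win_lower (k : ℕ) : ∃ c : ℝ, 0 < c ∧ ∃ y0 : ℕ, ∀ y N : ℕ, y0 ≤ y → y ≤ N →
    N ≤ y ^ k → c * (N / Real.log y) ≤ (Win N y).ncard := by
  obtain ⟨c, hc, z0, h⟩ := psi_ge (4 * k)
  obtain ⟨y1, h1⟩ := exists_prime_count
  refine ⟨c / 10, by positivity, max (max (4 * z0) y1) 20, ?_⟩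
  intro y N hy hyN hN
  have hya : 4 * z0 ≤ y := (le_max_left _ _).trans ((le_max_left _ _).trans hy)
  have hyb : y1 ≤ y := (le_max_right _ _).trans ((le_max_left _ _).trans hy)
  have hyc : 20 ≤ y := (le_max_right _ _).trans hy
  have hdiv1 : 1 ≤ N / y := (Nat.one_le_div_iff (by omega)).mpr hyN
  have hpow : (N / y) ^ 2 ≤ (y / 4) ^ (4 * k + 2) := by
    have h2 : y ≤ (y / 4) ^ 2 := by
      have h3 : 5 ≤ y / 4 := by omega
      have h4 : y < 4 * (y / 4) + 4 := by omega
      nlinarith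
    calc (N / y) ^ 2 ≤ N ^ 2 := Nat.pow_le_pow_left (Nat.div_le_self _ _) 2
      _ ≤ (y ^ k) ^ 2 := Nat.pow_le_pow_left hN 2
      _ ≤ (((y / 4) ^ 2) ^ k) ^ 2 := Nat.pow_le_pow_left (Nat.pow_le_pow_left h2 k) 2
      _ = (y / 4) ^ (4 * k) := by ring
      _ ≤ _ := Nat.pow_le_pow_right (by omega) (by omega)
  have h2 := h (y / 4) (N / y) (by omega) hdiv1 hpow
  have h3 := h1 y hyb
  have h4 := Win_ge N y
  have hypos : (0 : ℝ) < y := by
    have : 0 < y := by omega
    exact_mod_cast this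
  have hlog : 0 < Real.log y := Real.log_pos (by
    have : 1 < y := by omega
    exact_mod_cast this)
  have h5 : (N : ℝ) / y / 2 ≤ ((N / y : ℕ) : ℝ) := by
    have h10 := Nat.lt_floor_add_one ((N : ℝ) / y)
    rw [Nat.floor_div_natCast, Nat.floor_natCast] at h10
    have h11 : (1 : ℝ) ≤ ((N / y : ℕ) : ℝ) := by exact_mod_cast hdiv1
    linarith
  calc c / 10 * (N / Real.log y) = (1 / 5 * (y / Real.log y)) * (c * (N / y / 2)) := by
        field_simp
        ring
    _ ≤ (((Nat.primesLE y).filter (fun p => y < 4 * p)).card : ℝ) *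
          (psi (N / y) (y / 4) : ℝ) := by
        apply mul_le_mul h3 _ (by positivity) (Nat.cast_nonneg _)
        exact (mul_le_mul_of_nonneg_left h5 hc.le).trans h2
    _ ≤ _ := by exact_mod_cast h4

end Pool.Agent.TN
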