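import Pool.Agent.TN.Main2

/-!
On every scale `y/4 < P n ≤ y`, `C y ≤ N ≤ y^k`, most `n` satisfy `P n ≤ t_n ≤ C P n`.
-/

namespace Pool.Agent.TN

open Finset Real Filter

theorem scale (k : ℕ) (ε : ℝ) (hε : 0 < ε) : ∃ C y0 : ℕ, 1 ≤ C ∧ ∀ y N : ℕ, y0 ≤ y →
    C * y ≤ N → N ≤ y ^ k →
    ({n | n ∈ Win N y ∧ ¬ (P n ≤ tn n ∧ tn n ≤ C * P n)}.ncard : ℝ) ≤
      ε * (Win N y).ncard := by
  classical
  obtain ⟨c, hc, y1, hW⟩ := Win_lower k
  -- constants
  obtain ⟨C', hC'⟩ := exists_nat_ge (12 / (ε * c) + 1)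
  have hC'1 : 1 ≤ C' := by
    have h1 : 0 < 12 / (ε * c) := by positivity
    have h2 : (1 : ℝ) ≤ C' := by linarith
    exact_mod_cast h2
  have hC'r : (1 : ℝ) ≤ C' := by exact_mod_cast hC'1
  have hC'pos : (0 : ℝ) < C' := by linarith
  have hC'2 : 6 / (C' : ℝ) ≤ ε * c / 2 := by
    have h1 : 12 / (ε * c) ≤ C' := by linarith
    rw [div_le_iff₀ (by positivity)] at h1
    rw [div_le_iff₀ hC'pos]
    linarith
  have hpi := Chebyshev.eventually_primeCounting_le (ε := 1) (by norm_num)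
  rw [eventually_atTop] at hpi
  obtain ⟨a, ha⟩ := hpi
  have hlo := (isLittleO_log_rpow_atTop (show (0 : ℝ) < 1 / 2 by norm_num)).bound
    (show 0 < ε * c / 4 by positivity)
  rw [eventually_atTop] at hlo
  obtain ⟨b, hb⟩ := hlo
  refine ⟨4 * C', max (max y1 64) (max ⌈a⌉₊ ⌈b⌉₊), by omega, ?_⟩
  intro y N hy hyN hN
  have hy1 : y1 ≤ y := (le_max_left _ _).trans ((le_max_left _ _).trans hy)
  have hy64 : 64 ≤ y := (le_max_right _ _).trans ((le_max_left _ _).trans hy)
  have hya : a ≤ y := (Nat.le_ceil a).trans (by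
    exact_mod_cast (le_max_left _ _).trans ((le_max_right _ _).trans hy))
  have hyb : b ≤ y := (Nat.le_ceil b).trans (by
    exact_mod_cast (le_max_right _ _).trans ((le_max_right _ _).trans hy))
  have hy64r : (64 : ℝ) ≤ y := by exact_mod_cast hy64
  have hypos : (0 : ℝ) < y := by linarith
  have hlog : 0 < Real.log y := Real.log_pos (by linarith)
  have hyN' : y ≤ N := by
    have : y ≤ 4 * C' * y := Nat.le_mul_of_pos_left _ (by omega)
    omega
  have hNpos : (0 : ℝ) < N := by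
    have : 0 < N := by omega
    exact_mod_cast this
  have hw := hW y N hy1 hyN' hN
  -- the prime count
  have hpi' : ((Nat.primesLE y).card : ℝ) ≤ 3 * (y / Real.log y) := by
    have h1 := ha y hya
    rw [Nat.floor_natCast, ← Nat.primesLE_card_eq_primeCounting] at h1
    have hlog2'' : Real.log 2 < 0.6931471808 := Real.log_two_lt_d9
    have hlog4 : Real.log 4 = 2 * Real.log 2 := by
      rw [show (4 : ℝ) = 2 ^ 2 by norm_num, Real.log_pow]; push_cast; ring
    calc _ ≤ _ := h1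
      _ = (Real.log 4 + 1) * (y / Real.log y) := by ring
      _ ≤ _ := by
          apply mul_le_mul_of_nonneg_right _ (by positivity)
          linarith
  -- the small quantities
  have hsmall : Real.log y ≤ ε * c / 4 * √(y : ℝ) := by
    have h1 := hb y hyb
    rw [Real.norm_of_nonneg hlog.le, Real.norm_of_nonneg (by positivity)] at h1
    rw [Real.sqrt_eq_rpow]
    exact h1
  have hsqpos : 0 < √(y : ℝ) := Real.sqrt_pos.mpr hypos
  have hsq8 : 8 ≤ √(y : ℝ) := by
    apply Real.le_sqrt_of_sq_le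
    norm_num
    linarith
  have hinv : 1 / √(y : ℝ) ≤ ε * c / 4 / Real.log y := by
    rw [div_le_div_iff₀ hsqpos hlog]
    linarith
  have e1 : √(N : ℝ) ≤ ε * c / 4 * (N / Real.log y) := by
    have h1 : √(y : ℝ) ≤ √(N : ℝ) := Real.sqrt_le_sqrt (by exact_mod_cast hyN')
    have h2 : √(N : ℝ) * √(N : ℝ) = N := Real.mul_self_sqrt hNpos.le
    calc √(N : ℝ) ≤ N * (1 / √(y : ℝ)) := by
          rw [mul_one_div, le_div_iff₀ hsqpos]
          nlinarith [Real.sqrt_nonneg (N : ℝ)]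
      _ ≤ N * (ε * c / 4 / Real.log y) := mul_le_mul_of_nonneg_left hinv hNpos.le
      _ = _ := by ring
  have e2 : (N : ℝ) / ((y / 4 : ℕ) : ℝ) ≤ ε * c / 4 * (N / Real.log y) := by
    have h1 : (y : ℝ) / 8 ≤ ((y / 4 : ℕ) : ℝ) := by
      have h2 : y ≤ 8 * (y / 4) := by omega
      have h3 : (y : ℝ) ≤ 8 * ((y / 4 : ℕ) : ℝ) := by exact_mod_cast h2
      linarith
    calc (N : ℝ) / ((y / 4 : ℕ) : ℝ) ≤ N / (y / 8) :=
          div_le_div_of_nonneg_left hNpos.le (by positivity) h1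
      _ = N * (8 / y) := by field_simp
      _ ≤ N * (1 / √(y : ℝ)) := by
          apply mul_le_mul_of_nonneg_left _ hNpos.le
          rw [div_le_div_iff₀ hypos hsqpos]
          have h14 : √(y : ℝ) * √(y : ℝ) = y := Real.mul_self_sqrt hypos.le
          nlinarith
      _ ≤ N * (ε * c / 4 / Real.log y) := mul_le_mul_of_nonneg_left hinv hNpos.le
      _ = _ := by ring
  -- the block count
  set L := C' * y with hL
  have hL1 : 1 ≤ L := Nat.mul_pos (by omega) (by omega)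
  have e3 : (((N / L + 1) * (Nat.primesLE y).card : ℕ) : ℝ) ≤ ε * c / 2 * (N / Real.log y) := by
    have h1 : ((N / L : ℕ) : ℝ) ≤ N / (C' * y) := by
      calc ((N / L : ℕ) : ℝ) ≤ (N : ℝ) / L := Nat.cast_div_le
        _ = _ := by rw [hL]; push_cast; rfl
    have h2 : (1 : ℝ) ≤ N / (C' * y) := by
      rw [one_le_div (by positivity)]
      have h3 : C' * y ≤ N := by
        have : C' * y ≤ 4 * C' * y := Nat.mul_le_mul_right _ (by omega)
        omega
      exact_mod_cast h3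
    push_cast
    calc (((N / L : ℕ) : ℝ) + 1) * ((Nat.primesLE y).card : ℝ) ≤
          (2 * (N / (C' * y))) * (3 * (y / Real.log y)) := by
          apply mul_le_mul (by linarith) hpi' (Nat.cast_nonneg _) (by positivity)
      _ = 6 / C' * (N / Real.log y) := by
          field_simp
          ring
      _ ≤ _ := mul_le_mul_of_nonneg_right hC'2 (by positivity)
  -- decomposition
  set E := {n | n ∈ Win N y ∧ ¬ (P n ≤ tn n ∧ tn n ≤ 4 * C' * P n)} with hE
  set Sq := {n | (1 ≤ n ∧ n ≤ N) ∧ IsSquare n} with hSq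
  set D := {n | (1 ≤ n ∧ n ≤ N) ∧ ∃ q, y / 4 < q ∧ q ^ 2 ∣ n} with hD
  set B := {n | (1 ≤ n ∧ n ≤ N) ∧ P n ≤ y ∧ ¬ IsSquare n ∧ L < tn n} with hB
  have hsub : E ⊆ Sq ∪ (D ∪ B) := by
    rintro n ⟨⟨hn, hP1, hP2⟩, hbad⟩
    by_cases h1 : IsSquare n
    · exact Or.inl ⟨hn, h1⟩
    right
    have hn2 : 2 ≤ n := by
      by_contra h
      have : n = 1 := by omega
      exact h1 (this ▸ ⟨1, rfl⟩)
    by_cases h3 : (P n) ^ 2 ∣ n
    · exact Or.inl ⟨hn, P n, by omega, h3⟩
    right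
    have h4 := P_le_tn hn2 h3
    have h5 : 4 * C' * P n < tn n := by
      by_contra h
      exact hbad ⟨h4, not_lt.mp h⟩
    refine ⟨hn, hP2, h1, ?_⟩
    have h6 : C' * y ≤ C' * (4 * P n) := Nat.mul_le_mul_left _ hP1.le
    have h7 : C' * (4 * P n) = 4 * C' * P n := by ring
    omega
  have hfinIcc : ∀ T : Set ℕ, (∀ n ∈ T, 1 ≤ n ∧ n ≤ N) → T.Finite := by
    intro T hT
    exact Set.Finite.subset (Finset.finite_toSet (Finset.Icc 1 N)) (by
      intro n hn; rw [Finset.mem_coe, Finset.mem_Icc]; exact hT n hn)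
  have hSqF : Sq.Finite := hfinIcc _ (fun n hn => hn.1)
  have hDF : D.Finite := hfinIcc _ (fun n hn => hn.1)
  have hBF : B.Finite := hfinIcc _ (fun n hn => hn.1)
  have hcard : E.ncard ≤ Sq.ncard + (D.ncard + B.ncard) := by
    calc E.ncard ≤ (Sq ∪ (D ∪ B)).ncard :=
          Set.ncard_le_ncard hsub (hSqF.union (hDF.union hBF))
      _ ≤ Sq.ncard + (D ∪ B).ncard := Set.ncard_union_le _ _
      _ ≤ _ := by
          have := Set.ncard_union_le D B
          omega
  have hcardR : (E.ncard : ℝ) ≤ Sq.ncard + (D.ncard + B.ncard) := by exact_mod_cast hcard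
  have b1 : (Sq.ncard : ℝ) ≤ √(N : ℝ) := card_squares_le N
  have b2 : (D.ncard : ℝ) ≤ N / ((y / 4 : ℕ) : ℝ) := card_sq_dvd_le N (y / 4) (by omega)
  have b3 : (B.ncard : ℝ) ≤ (((N / L + 1) * (Nat.primesLE y).card : ℕ) : ℝ) := by
    exact_mod_cast card_smooth_bad N L y hL1
  calc (E.ncard : ℝ) ≤ ε * c / 4 * (N / Real.log y) + (ε * c / 4 * (N / Real.log y) +
        ε * c / 2 * (N / Real.log y)) := by linarith
    _ = ε * (c * (N / Real.log y)) := by ring
    _ ≤ _ := mul_le_mul_of_nonneg_left hw hε.le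

end Pool.Agent.TN
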