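import Pool.Agent.TN.Main1

/-!
Lower bounds for the number of `n ≤ N` with `y/4 < P n ≤ y`.
-/

namespace Pool.Agent.TN

open Finset Real

/-- `∑_{√z < q ≤ z} 1/q ≥ 1/16` for large `z`. -/
lemma sum_inv_primes_ge (z : ℕ) (hz : 32 ≤ Real.log z) :
    (1 : ℝ) / 16 ≤ ∑ q ∈ (Nat.primesLE z).filter (fun q => z < q * q), (1 : ℝ) / q := by
  have hz0 : (0 : ℝ) < z := by
    by_contra h
    have : (z : ℝ) = 0 := le_antisymm (not_lt.mp h) (Nat.cast_nonneg z)
    rw [this, Real.log_zero] at hz
    linarith
  have hz1 : 1 ≤ z := by
    have : 0 < z := by exact_mod_cast hz0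
    omega
  have hlog2 : 0 < Real.log 2 := Real.log_pos (by norm_num)
  have hlog2'' : Real.log 2 < 0.6931471808 := Real.log_two_lt_d9
  have h1 : Real.log z - 1 ≤ ∑ q ∈ Nat.primesLE z, Real.log q / ((q : ℝ) - 1) := by
    have h2 : (z : ℝ) * Real.log z - z ≤ Real.log (z.factorial) := by
      have h3 := Real.pow_div_factorial_le_exp (z : ℝ) hz0.le z
      have h4 : (0 : ℝ) < z.factorial := by exact_mod_cast Nat.factorial_pos z
      have h5 := Real.log_le_log (by positivity) h3
      rw [Real.log_exp, Real.log_div (by positivity) h4.ne', Real.log_pow] at h5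
      linarith
    have h3 : Real.log (z.factorial) ≤ z * ∑ q ∈ Nat.primesLE z, Real.log q / ((q : ℝ) - 1) := by
      rw [Real.log_nat_eq_sum_factorization, Finsupp.sum, Finset.mul_sum]
      have hss : z.factorial.factorization.support ⊆ Nat.primesLE z := by
        intro q hq
        rw [Nat.support_factorization] at hq
        have hqp := Nat.prime_of_mem_primeFactors hq
        have hqd := Nat.dvd_of_mem_primeFactors hq
        rw [Nat.mem_primesLE]
        exact ⟨(hqp.dvd_factorial).mp hqd, hqp⟩
      calc _ ≤ ∑ q ∈ Nat.primesLE z, ((z.factorial.factorization q : ℕ) : ℝ) * Real.log q := by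
            apply Finset.sum_le_sum_of_subset_of_nonneg hss
            intro q _ _
            exact mul_nonneg (Nat.cast_nonneg _) (Real.log_natCast_nonneg q)
        _ ≤ _ := by
            apply Finset.sum_le_sum
            intro q hq
            have hqp : q.Prime := (Nat.mem_primesLE.mp hq).2
            have hlq : 0 ≤ Real.log q := Real.log_natCast_nonneg q
            have hqr : (2 : ℝ) ≤ q := by exact_mod_cast hqp.two_le
            have h6 := Nat.factorization_factorial_le_div_pred hqp z
            have h7 : ((z.factorial.factorization q : ℕ) : ℝ) ≤ z / ((q : ℝ) - 1) := by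
              calc ((z.factorial.factorization q : ℕ) : ℝ) ≤ ((z / (q - 1) : ℕ) : ℝ) := by
                    exact_mod_cast h6
                _ ≤ (z : ℝ) / ((q - 1 : ℕ) : ℝ) := Nat.cast_div_le
                _ = _ := by rw [Nat.cast_sub hqp.one_le]; norm_num
            calc _ ≤ (z / ((q : ℝ) - 1)) * Real.log q := mul_le_mul_of_nonneg_right h7 hlq
              _ = _ := by ring
    have h4 : (z : ℝ) * (Real.log z - 1) ≤
        z * ∑ q ∈ Nat.primesLE z, Real.log q / ((q : ℝ) - 1) := by linarith
    exact le_of_mul_le_mul_left h4 hz0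
  rw [← Finset.sum_filter_add_sum_filter_not (Nat.primesLE z) (fun q => z < q * q)] at h1
  have h2 : ∑ q ∈ (Nat.primesLE z).filter (fun q => ¬ z < q * q), Real.log q / ((q : ℝ) - 1) ≤
      Real.log 2 + 3 / 2 * (Real.log z / 2 + 2 * Real.log 2) := by
    have hs1 : 1 ≤ Nat.sqrt z := Nat.le_sqrt.mpr (by omega)
    have h3 := sum_log_div_le (Nat.sqrt z) hs1
    have hlog4 : Real.log 4 = 2 * Real.log 2 := by
      rw [show (4 : ℝ) = 2 ^ 2 by norm_num, Real.log_pow]; push_cast; ring
    have h4 : Real.log (Nat.sqrt z : ℝ) ≤ Real.log z / 2 := by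
      have h5 : ((Nat.sqrt z : ℕ) : ℝ) * (Nat.sqrt z : ℕ) ≤ z := by
        exact_mod_cast Nat.sqrt_le z
      have h6 : (0 : ℝ) < (Nat.sqrt z : ℕ) := by exact_mod_cast hs1
      have h7 := Real.log_le_log (by positivity) h5
      rw [Real.log_mul h6.ne' h6.ne'] at h7
      linarith
    have hsub : (Nat.primesLE z).filter (fun q => ¬ z < q * q) ⊆ Nat.primesLE (Nat.sqrt z) := by
      intro q hq
      have h5 := Finset.mem_filter.mp hq
      have h6 := Nat.mem_primesLE.mp h5.1
      rw [Nat.mem_primesLE]
      exact ⟨Nat.le_sqrt.mpr (by omega), h6.2⟩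
    calc _ ≤ ∑ q ∈ Nat.primesLE (Nat.sqrt z), Real.log q / ((q : ℝ) - 1) := by
          apply Finset.sum_le_sum_of_subset_of_nonneg hsub
          intro q hq _
          have hqp : q.Prime := (Nat.mem_primesLE.mp hq).2
          have hqr : (2 : ℝ) ≤ q := by exact_mod_cast hqp.two_le
          exact div_nonneg (Real.log_natCast_nonneg q) (by linarith)
      _ ≤ ∑ q ∈ Nat.primesLE (Nat.sqrt z), ((if q = 2 then Real.log 2 else 0) +
            3 / 2 * (Real.log q / q)) := by
          apply Finset.sum_le_sum
          intro q hq
          have hqp : q.Prime := (Nat.mem_primesLE.mp hq).2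
          have hlq : 0 ≤ Real.log q := Real.log_natCast_nonneg q
          rcases eq_or_ne q 2 with rfl | hq2
          · rw [if_pos rfl]
            push_cast
            norm_num
            linarith
          · rw [if_neg hq2, zero_add]
            have h3 : 3 ≤ q := by
              have := hqp.two_le
              omega
            have hqr : (3 : ℝ) ≤ q := by exact_mod_cast h3
            rw [← mul_div_assoc, div_le_div_iff₀ (by linarith) (by linarith)]
            nlinarith
      _ = ∑ q ∈ Nat.primesLE (Nat.sqrt z), (if q = 2 then Real.log 2 else 0) +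
            3 / 2 * ∑ q ∈ Nat.primesLE (Nat.sqrt z), Real.log q / q := by
          rw [Finset.sum_add_distrib, Finset.mul_sum]
      _ ≤ _ := by
          have h5 : ∑ q ∈ Nat.primesLE (Nat.sqrt z), (if q = 2 then Real.log 2 else 0) ≤
              Real.log 2 := by
            rw [Finset.sum_ite_eq']
            split_ifs <;> linarith
          rw [hlog4] at h3
          linarith
  have h3 : ∑ q ∈ (Nat.primesLE z).filter (fun q => z < q * q), Real.log q / ((q : ℝ) - 1) ≤
      2 * Real.log z * ∑ q ∈ (Nat.primesLE z).filter (fun q => z < q * q), (1 : ℝ) / q := by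
    rw [Finset.mul_sum]
    apply Finset.sum_le_sum
    intro q hq
    have h5 := Finset.mem_filter.mp hq
    have h6 := Nat.mem_primesLE.mp h5.1
    have hqr : (2 : ℝ) ≤ q := by exact_mod_cast h6.2.two_le
    have h7 : Real.log q ≤ Real.log z := by
      apply Real.log_le_log (by linarith)
      exact_mod_cast h6.1
    have hlz : 0 ≤ Real.log z := by linarith
    calc Real.log q / ((q : ℝ) - 1) ≤ Real.log z / ((q : ℝ) - 1) :=
          div_le_div_of_nonneg_right h7 (by linarith)
      _ ≤ _ := by
          rw [mul_one_div, div_le_div_iff₀ (by linarith) (by linarith)]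
          nlinarith
  set s := ∑ q ∈ (Nat.primesLE z).filter (fun q => z < q * q), (1 : ℝ) / q with hs
  have h4 : Real.log z / 4 - 4 ≤ 2 * Real.log z * s := by linarith
  have h5 : Real.log z * (1 / 16) ≤ Real.log z * s := by
    linarith
  exact le_of_mul_le_mul_left h5 (by linarith)

/-- The number of `z`-smooth numbers up to `x`. -/
def psi (x z : ℕ) : ℕ := ((Finset.Icc 1 x).filter (fun m => P m ≤ z)).card

lemma P_mul_le {q m z : ℕ} (hq : q.Prime) (hqz : q ≤ z) (hm : P m ≤ z) (hm0 : m ≠ 0) :
    P (q * m) ≤ z := by
  unfold P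
  apply Finset.sup_le
  intro r hr
  rw [Nat.primeFactors_mul hq.ne_zero hm0, Finset.mem_union] at hr
  rcases hr with h | h
  · rw [hq.primeFactors, Finset.mem_singleton] at h
    simp only [id]
    omega
  · exact (le_P h).trans hm

/-- Smooth numbers have positive density in every bounded range `x² ≤ z^(k+2)`. -/
lemma psi_ge (k : ℕ) : ∃ c : ℝ, 0 < c ∧ ∃ z0 : ℕ, ∀ z x : ℕ, z0 ≤ z → 1 ≤ x →
    x ^ 2 ≤ z ^ (k + 2) → c * x ≤ psi x z := by
  induction k with
  | zero =>
    refine ⟨1, one_pos, 0, ?_⟩
    intro z x _ hx hxz
    have h1 : x ≤ z := by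
      rw [Nat.zero_add] at hxz
      exact (Nat.pow_le_pow_iff_left (by norm_num)).mp hxz
    have h2 : psi x z = x := by
      unfold psi
      rw [Finset.filter_true_of_mem, Nat.card_Icc, Nat.add_sub_cancel]
      intro m hm
      have := Finset.mem_Icc.mp hm
      exact (P_le this.1).trans (by omega)
    rw [h2, one_mul]
  | succ k ih =>
    obtain ⟨c, hc, z0, h⟩ := ih
    have hc1 : c ≤ 1 := by
      have h1 := h (max z0 1) 1 (le_max_left _ _) le_rfl (by
        rw [one_pow]
        exact Nat.one_le_pow _ _ (by omega))
      have h2 : psi 1 (max z0 1) ≤ 1 := by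
        unfold psi
        calc _ ≤ (Finset.Icc 1 1).card := Finset.card_filter_le _ _
          _ = 1 := by simp
      have h3 : ((psi 1 (max z0 1) : ℕ) : ℝ) ≤ 1 := by exact_mod_cast h2
      push_cast at h1
      linarith
    refine ⟨c / (32 * (k + 3)), by positivity, max z0 ⌈Real.exp 32⌉₊, ?_⟩
    intro z x hz hx hxz
    have hz0 : z0 ≤ z := (le_max_left _ _).trans hz
    have hzexp : Real.exp 32 ≤ z := (Nat.le_ceil _).trans (by
      exact_mod_cast (le_max_right _ _).trans hz)
    have hzpos : (0 : ℝ) < z := (Real.exp_pos _).trans_le hzexp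
    have hzlog : 32 ≤ Real.log z := (Real.le_log_iff_exp_le hzpos).mpr hzexp
    have hz2 : 2 ≤ z := by
      have h1 : (32 : ℝ) + 1 ≤ Real.exp 32 := Real.add_one_le_exp 32
      have h2 : (2 : ℝ) ≤ z := by linarith
      exact_mod_cast h2
    have hkpos : (0 : ℝ) < (k : ℝ) + 3 := by positivity
    rcases le_or_gt x z with hxz1 | hxz1
    · have h2 : psi x z = x := by
        unfold psi
        rw [Finset.filter_true_of_mem, Nat.card_Icc, Nat.add_sub_cancel]
        intro m hm
        have := Finset.mem_Icc.mp hm
        exact (P_le this.1).trans (by omega)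
      rw [h2]
      have hx0 : (0 : ℝ) ≤ x := Nat.cast_nonneg x
      have : c / (32 * (k + 3)) ≤ 1 := by
        rw [div_le_one (by positivity)]
        have : (0 : ℝ) ≤ k := Nat.cast_nonneg k
        linarith
      calc _ ≤ 1 * (x : ℝ) := mul_le_mul_of_nonneg_right this hx0
        _ = _ := one_mul _
    · set Q := (Nat.primesLE z).filter (fun q => z < q * q) with hQ
      have hQ' : ∀ q ∈ Q, q.Prime ∧ q ≤ z ∧ z < q * q := by
        intro q hq
        have h5 := Finset.mem_filter.mp hq
        have h6 := Nat.mem_primesLE.mp h5.1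
        exact ⟨h6.2, h6.1, h5.2⟩
      set S := Q.sigma (fun q => (Finset.Icc 1 (x / q)).filter (fun m => P m ≤ z)) with hS
      have hScard : S.card = ∑ q ∈ Q, psi (x / q) z := by
        rw [hS, Finset.card_sigma]
        rfl
      have hle : S.card ≤ (k + 3) * psi x z := by
        unfold psi
        apply Finset.card_le_mul_card_image_of_maps_to (f := fun s => s.1 * s.2)
        · rintro ⟨q, m⟩ hqm
          rw [hS, Finset.mem_sigma] at hqm
          obtain ⟨h1, h2⟩ := hqm
          simp only at h1 h2
          have h3 := Finset.mem_filter.mp h2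
          have h4 := Finset.mem_Icc.mp h3.1
          have h5 := hQ' q h1
          rw [Finset.mem_filter, Finset.mem_Icc]
          have hm1 : 1 ≤ m := h4.1
          have hm0 : m ≠ 0 := by omega
          refine ⟨⟨?_, ?_⟩, ?_⟩
          · exact Nat.mul_pos h5.1.pos hm1
          · calc q * m ≤ q * (x / q) := Nat.mul_le_mul_left _ h4.2
              _ ≤ x := Nat.mul_div_le _ _
          · exact P_mul_le h5.1 h5.2.1 h3.2 hm0
        · intro n hn
          have hn' := Finset.mem_filter.mp hn
          have hn'' := Finset.mem_Icc.mp hn'.1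
          set F := Q.filter (fun q => q ∣ n) with hF
          have hfib : (S.filter (fun s => s.1 * s.2 = n)).card ≤ F.card := by
            apply Finset.card_le_card_of_injOn (fun s => s.1)
            · rintro ⟨q, m⟩ hqm
              have h1 := Finset.mem_filter.mp hqm
              have h2 := Finset.mem_sigma.mp h1.1
              simp only at h2 ⊢
              rw [Finset.mem_coe, hF, Finset.mem_filter]
              exact ⟨h2.1, ⟨m, h1.2.symm⟩⟩
            · rintro ⟨q, m⟩ hqm ⟨q', m'⟩ hqm' heq
              simp only at heq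
              subst heq
              have h1 := (Finset.mem_filter.mp hqm).2
              have h2 := (Finset.mem_filter.mp hqm').2
              simp only at h1 h2
              have h3 := Finset.mem_sigma.mp (Finset.mem_filter.mp hqm).1
              have hqpos := (hQ' q h3.1).1.pos
              have : m = m' := Nat.eq_of_mul_eq_mul_left hqpos (h1.trans h2.symm)
              rw [this]
          refine hfib.trans ?_
          have hdvd : ∏ q ∈ F, q ∣ n := by
            apply Finset.prod_primes_dvd
            · intro q hq
              exact (hQ' q (Finset.mem_filter.mp hq).1).1.prime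
            · intro q hq
              exact (Finset.mem_filter.mp hq).2
          have hprodle : ∏ q ∈ F, q ≤ x := (Nat.le_of_dvd (by omega) hdvd).trans hn''.2
          have h1 : z ^ F.card ≤ z ^ (k + 3) := by
            calc z ^ F.card = ∏ _q ∈ F, z := by rw [Finset.prod_const]
              _ ≤ ∏ q ∈ F, (q * q) := by
                  apply Finset.prod_le_prod'
                  intro q hq
                  exact (hQ' q (Finset.mem_filter.mp hq).1).2.2.le
              _ = (∏ q ∈ F, q) ^ 2 := by rw [Finset.prod_mul_distrib, pow_two]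
              _ ≤ x ^ 2 := Nat.pow_le_pow_left hprodle 2
              _ ≤ _ := hxz
          exact (Nat.pow_le_pow_iff_right (by omega)).mp h1
      have hge : c * x / 2 * (1 / 16) ≤ (S.card : ℝ) := by
        rw [hScard]
        push_cast
        calc c * x / 2 * (1 / 16) ≤ c * x / 2 * ∑ q ∈ Q, (1 : ℝ) / q := by
              apply mul_le_mul_of_nonneg_left (sum_inv_primes_ge z hzlog)
              positivity
          _ = ∑ q ∈ Q, c * x / 2 * ((1 : ℝ) / q) := by rw [Finset.mul_sum]
          _ ≤ _ := by
              apply Finset.sum_le_sum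
              intro q hq
              have h5 := hQ' q hq
              have hqpos : (0 : ℝ) < q := by exact_mod_cast h5.1.pos
              have h6 : 1 ≤ x / q := (Nat.one_le_div_iff h5.1.pos).mpr (by omega)
              have h7 : (x / q) ^ 2 ≤ z ^ (k + 2) := by
                have h8 : (x / q) ^ 2 * (q * q) ≤ z ^ (k + 2) * (q * q) := by
                  calc (x / q) ^ 2 * (q * q) = (x / q * q) ^ 2 := by ring
                    _ ≤ x ^ 2 := Nat.pow_le_pow_left (Nat.div_mul_le_self _ _) 2
                    _ ≤ z ^ (k + 1 + 2) := hxz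
                    _ = z ^ (k + 2) * z := by ring
                    _ ≤ _ := Nat.mul_le_mul_left _ h5.2.2.le
                exact Nat.le_of_mul_le_mul_right h8 (Nat.mul_pos h5.1.pos h5.1.pos)
              have h8 := h z (x / q) hz0 h6 h7
              have h9 : (x : ℝ) / q / 2 ≤ ((x / q : ℕ) : ℝ) := by
                have h10 := Nat.lt_floor_add_one ((x : ℝ) / q)
                rw [Nat.floor_div_natCast, Nat.floor_natCast] at h10
                have h11 : (1 : ℝ) ≤ ((x / q : ℕ) : ℝ) := by exact_mod_cast h6
                linarith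
              calc c * x / 2 * ((1 : ℝ) / q) = c * ((x : ℝ) / q / 2) := by ring
                _ ≤ c * ((x / q : ℕ) : ℝ) := mul_le_mul_of_nonneg_left h9 hc.le
                _ ≤ _ := h8
      have hle' : (S.card : ℝ) ≤ (k + 3) * psi x z := by exact_mod_cast hle
      calc c / (32 * (k + 3)) * x = (c * x / 2 * (1 / 16)) / (k + 3) := by
            field_simp
            ring
        _ ≤ ((k + 3) * psi x z) / (k + 3) :=
            div_le_div_of_nonneg_right (hge.trans hle') hkpos.le
        _ = _ := by field_simp

end Pool.Agent.TN
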